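import Pool.Agent.W_7d29a1_P78.Nums

/-!
# Theorem (P): the numbers of steps 2 and 4, in the letters of the frame
-/

set_option autoImplicit false

namespace Pool.Agent.W_7d29a1_P78

theorem numsC1 {d k : ℕ} {a t u p : ℝ} (ha : 0 < a) (hat : a < t)
    (hcl : ((d : ℝ) + 1) * (t - a) / a ≤ 1 / 100) (hu : 1 ≤ u) (hk : 1 ≤ k)
    (hp : Real.exp (-(t * u)) ≤ p) :
    ∃ L0 : ℕ, ∀ L : ℕ, L0 ≤ L → ∃ r J : ℕ, 1 ≤ r ∧ 0 < J ∧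
      (2 * (L : ℝ) + 1) ^ (d + 1) * Real.exp (-(a * ((r : ℝ) * u))) ≤ 1 / 4 ∧
      2 * ((J + 1) * (r * k)) ≤ L ∧ ((J * (r * k) : ℕ) : ℝ) ≤ (L : ℝ) ^ (1 / 8 : ℝ) ∧
      (L : ℝ) ^ (1 / 9 : ℝ) ≤
        ∑ _j ∈ Finset.range J, (3 / 4 / (2 * ((r * k : ℕ) : ℝ) + 1) ^ d *
          Real.exp (a * ((r : ℝ) * u)) * p ^ r) * (1 / 2) := by
  obtain ⟨L0, h0⟩ := numsP ha hat hcl hu hk hp
  refine ⟨L0, fun L hL => ?_⟩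
  obtain ⟨r, J, h1, h2, h3, h4, h5, h6⟩ := h0 L hL
  have e : a * ((r : ℝ) * u) = a * u * r := by ring
  refine ⟨r, J, h1, h2, by rw [e]; exact h3, h4, h5, h6.trans ?_⟩
  rw [Finset.sum_const, Finset.card_range, nsmul_eq_mul, e]
  have hp0 : 0 ≤ p := (Real.exp_pos _).le.trans hp
  have hK : (0 : ℝ) < (2 * ((r * k : ℕ) : ℝ) + 1) ^ d := by positivity
  have hX : 0 ≤ (J : ℝ) * (((2 * ((r * k : ℕ) : ℝ) + 1) ^ d)⁻¹ * Real.exp (a * u * r) * p ^ r) := by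
    positivity
  have e1 : J * (1 / 2) * ((2 * ((r * k : ℕ) : ℝ) + 1) ^ d)⁻¹ * Real.exp (a * u * r) * p ^ r / 2 =
      (1 / 4) * ((J : ℝ) * (((2 * ((r * k : ℕ) : ℝ) + 1) ^ d)⁻¹ * Real.exp (a * u * r) * p ^ r)) := by
    ring
  have e2 : (J : ℝ) * ((3 / 4 / (2 * ((r * k : ℕ) : ℝ) + 1) ^ d *
      Real.exp (a * u * r) * p ^ r) * (1 / 2)) =
      (3 / 8) * ((J : ℝ) * (((2 * ((r * k : ℕ) : ℝ) + 1) ^ d)⁻¹ * Real.exp (a * u * r) * p ^ r)) := by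
    rw [div_eq_mul_inv (3 / 4 : ℝ)]; ring
  rw [e1, e2]
  linarith

end Pool.Agent.W_7d29a1_P78
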