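import Mathlib

/-!
# Theorem (P): the choice of the parameters
`numsP`: the number of pieces `r`, and the number `J` of scales; `step3P`: the restricted sums stay at least
one half.
-/

set_option autoImplicit false

open Filter Topology

namespace Pool.Agent.W_7d29a1_P78

/-- A power beats a constant. -/
theorem ev_const_le_rpow {a : ℝ} (ha : 0 < a) (C : ℝ) : ∀ᶠ x : ℝ in atTop, C ≤ x ^ a :=
  (tendsto_rpow_atTop ha).eventually_ge_atTop C

/-- A power beats a logarithm. -/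
theorem ev_log_le_rpow {a : ℝ} (ha : 0 < a) (A B : ℝ) :
    ∀ᶠ x : ℝ in atTop, A * Real.log (2 * x + 1) + B ≤ x ^ a := by
  have h1 : ∀ᶠ x : ℝ in atTop, (|A| + 1) * (2 * Real.log x) + |B| ≤ x ^ a := by
    have h := (isLittleO_log_rpow_atTop ha).def
      (show (0 : ℝ) < 1 / (4 * (|A| + 1)) by positivity)
    filter_upwards [h, eventually_ge_atTop 1, ev_const_le_rpow ha (2 * |B|)] with x hx hx1 hx2
    rw [Real.norm_of_nonneg (Real.log_nonneg hx1),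
      Real.norm_of_nonneg (Real.rpow_nonneg (by linarith) _)] at hx
    have hA : 0 < |A| + 1 := by positivity
    have h3 : (|A| + 1) * (2 * Real.log x) ≤ x ^ a / 2 := by
      calc (|A| + 1) * (2 * Real.log x) ≤ (|A| + 1) * (2 * (1 / (4 * (|A| + 1)) * x ^ a)) := by
            apply mul_le_mul_of_nonneg_left _ hA.le; linarith
        _ = x ^ a / 2 := by field_simp; ring
    linarith
  filter_upwards [h1, eventually_ge_atTop 3] with x hx hx3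
  have h2 : Real.log (2 * x + 1) ≤ 2 * Real.log x := by
    have : Real.log (2 * x + 1) ≤ Real.log (x ^ 2) := by
      apply Real.log_le_log (by linarith); nlinarith
    rwa [Real.log_pow, Nat.cast_ofNat] at this
  have h0 : 0 ≤ Real.log (2 * x + 1) := Real.log_nonneg (by linarith)
  have h4 : A * Real.log (2 * x + 1) ≤ (|A| + 1) * (2 * Real.log x) := by
    calc A * Real.log (2 * x + 1) ≤ (|A| + 1) * Real.log (2 * x + 1) := by
          apply mul_le_mul_of_nonneg_right _ h0; linarith [le_abs_self A]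
      _ ≤ _ := mul_le_mul_of_nonneg_left h2 (by positivity)
  linarith [le_abs_self B]

/-- The choice of `r` and `J`. -/
theorem numsP {d k : ℕ} {τ t u p : ℝ} (hτ : 0 < τ) (hτt : τ < t)
    (hcl : ((d : ℝ) + 1) * (t - τ) / τ ≤ 1 / 100) (hu : 1 ≤ u) (hk : 1 ≤ k)
    (hp : Real.exp (-(t * u)) ≤ p) :
    ∃ L0 : ℕ, ∀ L : ℕ, L0 ≤ L → ∃ r J : ℕ, 1 ≤ r ∧ 1 ≤ J ∧
      (2 * (L : ℝ) + 1) ^ (d + 1) * Real.exp (-(τ * u * r)) ≤ 1 / 4 ∧
      2 * ((J + 1) * (r * k)) ≤ L ∧ ((J * (r * k) : ℕ) : ℝ) ≤ (L : ℝ) ^ (1 / 8 : ℝ) ∧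
      (L : ℝ) ^ (1 / 9 : ℝ) ≤
        J * (1 / 2) * ((2 * ((r * k : ℕ) : ℝ) + 1) ^ d)⁻¹ * Real.exp (τ * u * r) * p ^ r / 2 := by
  have htu : 0 < τ * u := by positivity
  -- constants
  set A : ℝ := ((d : ℝ) + 1) / (τ * u) with hA
  set B : ℝ := Real.log 4 / (τ * u) + 1 with hB
  have hA0 : 0 ≤ A := by positivity
  have hlog4 : 0 < Real.log 4 := Real.log_pos (by norm_num)
  set δ : ℝ := 1 / (1000 * ((d : ℝ) + 1)) with hδ
  have hδ0 : 0 < δ := by positivity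
  set c : ℝ := Real.exp (-((t - τ) * (Real.log 4 / τ + u))) with hc
  have hc0 : 0 < c := Real.exp_pos _
  have hkpos : (0 : ℝ) < k := by exact_mod_cast hk
  -- eventual facts
  have E1 : ∀ᶠ x : ℝ in atTop, (k * A) * Real.log (2 * x + 1) + k * B ≤ x ^ δ :=
    ev_log_le_rpow hδ0 _ _
  have E2 : ∀ᶠ x : ℝ in atTop, 8 * 3 ^ d * 2 * 3 / c ≤ x ^ (1 / 1000 : ℝ) :=
    ev_const_le_rpow (by norm_num) _
  have E3 : ∀ᶠ x : ℝ in atTop, (2 : ℝ) ≤ x ^ (1 / 8 - δ) := by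
    apply ev_const_le_rpow
    have : δ ≤ 1 / 1000 := by
      rw [hδ]; apply one_div_le_one_div_of_le (by norm_num)
      nlinarith [Nat.cast_nonneg (α := ℝ) d]
    linarith
  have E4 : ∀ᶠ x : ℝ in atTop, (4 : ℝ) ≤ x ^ (7 / 8 : ℝ) := ev_const_le_rpow (by norm_num) _
  have E5 : ∀ᶠ x : ℝ in atTop, (1 : ℝ) ≤ x := eventually_ge_atTop 1
  have hall := (E1.and (E2.and (E3.and (E4.and E5))))
  obtain ⟨x0, hx0⟩ := eventually_atTop.1 hall
  obtain ⟨L0, hL0⟩ := exists_nat_ge x0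
  refine ⟨L0, fun L hL => ?_⟩
  have hxL : x0 ≤ (L : ℝ) := hL0.trans (by exact_mod_cast hL)
  obtain ⟨F1, F2, F3, F4, F5⟩ := hx0 L hxL
  have hLpos : (0 : ℝ) < L := by linarith
  have hlog : 0 ≤ Real.log (2 * (L : ℝ) + 1) := Real.log_nonneg (by linarith)
  -- `r`
  set R : ℝ := A * Real.log (2 * (L : ℝ) + 1) + Real.log 4 / (τ * u) with hR
  have hR0 : 0 < R := by positivity
  set r : ℕ := ⌈R⌉₊ with hr
  have hr1 : 1 ≤ r := Nat.one_le_iff_ne_zero.2 (by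
    rw [hr]; exact (Nat.ceil_pos.2 hR0).ne')
  have hRr : R ≤ r := Nat.le_ceil R
  have hrR : (r : ℝ) ≤ R + 1 := (Nat.ceil_lt_add_one hR0.le).le
  have hrpos : (0 : ℝ) < r := by exact_mod_cast hr1
  -- `K`
  have hKle : (((r * k : ℕ)) : ℝ) ≤ (L : ℝ) ^ δ := by
    push_cast
    calc (r : ℝ) * k ≤ (R + 1) * k := mul_le_mul_of_nonneg_right hrR hkpos.le
      _ = (k * A) * Real.log (2 * (L : ℝ) + 1) + k * B := by rw [hR, hB]; ring
      _ ≤ _ := F1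
  set K : ℝ := ((r * k : ℕ) : ℝ) with hK
  have hK1 : 1 ≤ K := by
    rw [hK]; exact_mod_cast Nat.mul_pos hr1 hk
  have hKpos : 0 < K := by linarith
  -- `J`
  set J : ℕ := ⌊(L : ℝ) ^ (1 / 8 : ℝ) / K⌋₊ with hJ
  have hLK : 2 ≤ (L : ℝ) ^ (1 / 8 : ℝ) / K := by
    rw [le_div_iff₀ hKpos]
    calc 2 * K ≤ (L : ℝ) ^ (1 / 8 - δ) * (L : ℝ) ^ δ :=
          mul_le_mul F3 hKle hKpos.le (by positivity)
      _ = (L : ℝ) ^ (1 / 8 : ℝ) := by rw [← Real.rpow_add hLpos]; ring_nf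
  have hJle : (J : ℝ) ≤ (L : ℝ) ^ (1 / 8 : ℝ) / K := Nat.floor_le (by positivity)
  have hJge : (L : ℝ) ^ (1 / 8 : ℝ) / (2 * K) ≤ J := by
    have h1 : (L : ℝ) ^ (1 / 8 : ℝ) / K - 1 ≤ J := (Nat.sub_one_lt_floor _).le
    have h2 : (L : ℝ) ^ (1 / 8 : ℝ) / (2 * K) = ((L : ℝ) ^ (1 / 8 : ℝ) / K) / 2 := by
      rw [div_div, mul_comm]
    rw [h2]; linarith
  have hJ1 : 1 ≤ J := by
    rw [hJ]; exact Nat.le_floor (by push_cast; linarith)
  have hJK : (J : ℝ) * K ≤ (L : ℝ) ^ (1 / 8 : ℝ) := by rwa [le_div_iff₀ hKpos] at hJle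
  refine ⟨r, J, hr1, hJ1, ?_, ?_, ?_, ?_⟩
  · -- the union bound
    have e1 : (2 * (L : ℝ) + 1) ^ (d + 1) =
        Real.exp (((d : ℝ) + 1) * Real.log (2 * (L : ℝ) + 1)) := by
      have hp' : (0 : ℝ) < 2 * (L : ℝ) + 1 := by linarith
      have e0 : ((d : ℝ) + 1) = ((d + 1 : ℕ) : ℝ) := by push_cast; ring
      rw [e0, Real.exp_nat_mul, Real.exp_log hp']
    rw [e1, ← Real.exp_add]
    have e2 : (1 / 4 : ℝ) = Real.exp (-Real.log 4) := by
      rw [Real.exp_neg, Real.exp_log (by norm_num)]; norm_num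
    rw [e2, Real.exp_le_exp]
    have e3 : τ * u * R = ((d : ℝ) + 1) * Real.log (2 * (L : ℝ) + 1) + Real.log 4 := by
      rw [hR, hA]; field_simp
    have e4 : τ * u * R ≤ τ * u * r := mul_le_mul_of_nonneg_left hRr htu.le
    linarith
  · -- `2 (J+1) K ≤ L`
    have h1 : (((2 * ((J + 1) * (r * k)) : ℕ)) : ℝ) ≤ L := by
      have : (((2 * ((J + 1) * (r * k)) : ℕ)) : ℝ) = 2 * ((J : ℝ) * K + K) := by
        rw [hK]; push_cast; ring
      rw [this]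
      have h2 : K ≤ (L : ℝ) ^ (1 / 8 : ℝ) := by
        have := mul_le_mul_of_nonneg_right (show (1 : ℝ) ≤ J by exact_mod_cast hJ1) hKpos.le
        linarith
      have h3 : (L : ℝ) = (L : ℝ) ^ (7 / 8 : ℝ) * (L : ℝ) ^ (1 / 8 : ℝ) := by
        rw [← Real.rpow_add hLpos]; norm_num
      have h4 : 4 * (L : ℝ) ^ (1 / 8 : ℝ) ≤ L := by
        conv_rhs => rw [h3]
        exact mul_le_mul_of_nonneg_right F4 (by positivity)
      linarith
    exact_mod_cast h1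
  · have : ((J * (r * k) : ℕ) : ℝ) = (J : ℝ) * K := by rw [hK]; push_cast; ring
    rw [this]; exact hJK
  · -- the gain
    have hpr : Real.exp (-(t * u * r)) ≤ p ^ r := by
      calc Real.exp (-(t * u * r)) = (Real.exp (-(t * u))) ^ r := by
            rw [← Real.exp_nat_mul]; ring_nf
        _ ≤ p ^ r := pow_le_pow_left₀ (Real.exp_pos _).le hp r
    have hg : c * (2 * (L : ℝ) + 1) ^ (-(1 / 100) : ℝ) ≤ Real.exp (τ * u * r) * p ^ r := by
      have h1 : Real.exp (-((t - τ) * (u * r))) ≤ Real.exp (τ * u * r) * p ^ r := by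
        calc Real.exp (-((t - τ) * (u * r))) = Real.exp (τ * u * r) * Real.exp (-(t * u * r)) := by
              rw [← Real.exp_add]; ring_nf
          _ ≤ _ := mul_le_mul_of_nonneg_left hpr (Real.exp_pos _).le
      refine le_trans ?_ h1
      rw [hc, Real.rpow_def_of_pos (by linarith), ← Real.exp_add, Real.exp_le_exp]
      have h2 : u * r ≤ ((d : ℝ) + 1) / τ * Real.log (2 * (L : ℝ) + 1) + Real.log 4 / τ + u := by
        have h3 : u * (r : ℝ) ≤ u * (R + 1) := mul_le_mul_of_nonneg_left hrR (by linarith)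
        have h4 : u * (R + 1) =
            ((d : ℝ) + 1) / τ * Real.log (2 * (L : ℝ) + 1) + Real.log 4 / τ + u := by
          rw [hR, hA]; field_simp
        linarith
      have h5 : 0 < t - τ := by linarith
      have h6 := mul_le_mul_of_nonneg_left h2 h5.le
      have h7 : (t - τ) * (((d : ℝ) + 1) / τ * Real.log (2 * (L : ℝ) + 1)) ≤
          1 / 100 * Real.log (2 * (L : ℝ) + 1) := by
        calc (t - τ) * (((d : ℝ) + 1) / τ * Real.log (2 * (L : ℝ) + 1))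
            = ((d : ℝ) + 1) * (t - τ) / τ * Real.log (2 * (L : ℝ) + 1) := by ring
          _ ≤ _ := mul_le_mul_of_nonneg_right hcl hlog
      nlinarith
    have h3K : (2 * K + 1) ^ d ≤ 3 ^ d * K ^ d := by
      rw [← mul_pow]; apply pow_le_pow_left₀ (by positivity); linarith
    have hKd : K ^ (d + 1) ≤ (L : ℝ) ^ (1 / 1000 : ℝ) := by
      calc K ^ (d + 1) ≤ ((L : ℝ) ^ δ) ^ (d + 1) := pow_le_pow_left₀ hKpos.le hKle _
        _ = (L : ℝ) ^ (1 / 1000 : ℝ) := by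
            rw [← Real.rpow_natCast, ← Real.rpow_mul hLpos.le]
            congr 1
            rw [hδ]; push_cast; field_simp
    have h2L : (2 * (L : ℝ) + 1) ^ (1 / 100 : ℝ) ≤ 3 * (L : ℝ) ^ (1 / 100 : ℝ) := by
      calc (2 * (L : ℝ) + 1) ^ (1 / 100 : ℝ) ≤ (3 * (L : ℝ)) ^ (1 / 100 : ℝ) :=
            Real.rpow_le_rpow (by positivity) (by linarith) (by norm_num)
        _ = 3 ^ (1 / 100 : ℝ) * (L : ℝ) ^ (1 / 100 : ℝ) :=
            Real.mul_rpow (by norm_num) hLpos.le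
        _ ≤ 3 * (L : ℝ) ^ (1 / 100 : ℝ) := by
            apply mul_le_mul_of_nonneg_right _ (by positivity)
            calc (3 : ℝ) ^ (1 / 100 : ℝ) ≤ 3 ^ (1 : ℝ) :=
                  Real.rpow_le_rpow_of_exponent_le (by norm_num) (by norm_num)
              _ = 3 := Real.rpow_one 3
    -- lower bound for the right side
    have hlow : (L : ℝ) ^ (1 / 8 : ℝ) / (2 * K) * (1 / 2) * (3 ^ d * K ^ d)⁻¹ *
        (c * (3 * (L : ℝ) ^ (1 / 100 : ℝ))⁻¹) / 2 ≤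
        J * (1 / 2) * ((2 * K + 1) ^ d)⁻¹ * Real.exp (τ * u * r) * p ^ r / 2 := by
      have hinv : (3 ^ d * K ^ d)⁻¹ ≤ ((2 * K + 1) ^ d)⁻¹ :=
        inv_anti₀ (by positivity) h3K
      have hinv2 : c * (3 * (L : ℝ) ^ (1 / 100 : ℝ))⁻¹ ≤ Real.exp (τ * u * r) * p ^ r := by
        refine le_trans ?_ hg
        apply mul_le_mul_of_nonneg_left _ hc0.le
        rw [Real.rpow_neg (by positivity)]
        exact inv_anti₀ (by positivity) h2L
      have hq : 0 ≤ Real.exp (τ * u * r) * p ^ r := le_trans (by positivity) hinv2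
      calc (L : ℝ) ^ (1 / 8 : ℝ) / (2 * K) * (1 / 2) * (3 ^ d * K ^ d)⁻¹ *
            (c * (3 * (L : ℝ) ^ (1 / 100 : ℝ))⁻¹) / 2
          ≤ J * (1 / 2) * ((2 * K + 1) ^ d)⁻¹ * (Real.exp (τ * u * r) * p ^ r) / 2 := by
            apply div_le_div_of_nonneg_right _ (by norm_num)
            apply mul_le_mul _ hinv2 (by positivity) (by positivity)
            apply mul_le_mul _ hinv (by positivity) (by positivity)
            exact mul_le_mul_of_nonneg_right hJge (by norm_num)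
        _ = _ := by ring
    refine le_trans ?_ hlow
    -- pure powers of `L`
    have hL19 : (L : ℝ) ^ (1 / 8 : ℝ) =
        (L : ℝ) ^ (1 / 9 : ℝ) * (L : ℝ) ^ (1 / 72 : ℝ) := by
      rw [← Real.rpow_add hLpos]; norm_num
    have h72 : (8 * 3 ^ d * 2 * 3 / c) * ((L : ℝ) ^ (1 / 1000 : ℝ) * (L : ℝ) ^ (1 / 100 : ℝ)) ≤
        (L : ℝ) ^ (1 / 72 : ℝ) := by
      calc (8 * 3 ^ d * 2 * 3 / c) * ((L : ℝ) ^ (1 / 1000 : ℝ) * (L : ℝ) ^ (1 / 100 : ℝ))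
          ≤ (L : ℝ) ^ (1 / 1000 : ℝ) * ((L : ℝ) ^ (1 / 1000 : ℝ) * (L : ℝ) ^ (1 / 100 : ℝ)) :=
            mul_le_mul_of_nonneg_right F2 (by positivity)
        _ = (L : ℝ) ^ (1 / 1000 + (1 / 1000 + 1 / 100) : ℝ) := by
            rw [← Real.rpow_add hLpos, ← Real.rpow_add hLpos]
        _ ≤ (L : ℝ) ^ (1 / 72 : ℝ) :=
            Real.rpow_le_rpow_of_exponent_le F5 (by norm_num)
    have e1 : (L : ℝ) ^ (1 / 8 : ℝ) / (2 * K) * (1 / 2) * (3 ^ d * K ^ d)⁻¹ *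
        (c * (3 * (L : ℝ) ^ (1 / 100 : ℝ))⁻¹) / 2 =
        (L : ℝ) ^ (1 / 9 : ℝ) * ((L : ℝ) ^ (1 / 72 : ℝ) * c /
          (8 * 3 ^ d * 3 * (K ^ (d + 1) * (L : ℝ) ^ (1 / 100 : ℝ)))) := by
      rw [hL19]; field_simp; ring
    rw [e1]
    apply le_mul_of_one_le_right (by positivity)
    rw [one_le_div (by positivity)]
    have h5 : 8 * 3 ^ d * 3 * (K ^ (d + 1) * (L : ℝ) ^ (1 / 100 : ℝ)) ≤
        8 * 3 ^ d * 3 * ((L : ℝ) ^ (1 / 1000 : ℝ) * (L : ℝ) ^ (1 / 100 : ℝ)) := by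
      apply mul_le_mul_of_nonneg_left _ (by positivity)
      exact mul_le_mul_of_nonneg_right hKd (by positivity)
    have h6 : 8 * 3 ^ d * 3 * ((L : ℝ) ^ (1 / 1000 : ℝ) * (L : ℝ) ^ (1 / 100 : ℝ)) ≤
        (L : ℝ) ^ (1 / 72 : ℝ) * c := by
      have h7 := mul_le_mul_of_nonneg_right h72 hc0.le
      have h8 : (8 * 3 ^ d * 2 * 3 / c) *
          ((L : ℝ) ^ (1 / 1000 : ℝ) * (L : ℝ) ^ (1 / 100 : ℝ)) * c =
          2 * (8 * 3 ^ d * 3 * ((L : ℝ) ^ (1 / 1000 : ℝ) * (L : ℝ) ^ (1 / 100 : ℝ))) := by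
        field_simp
      rw [h8] at h7
      have h9 : 0 ≤ 8 * 3 ^ d * 3 * ((L : ℝ) ^ (1 / 1000 : ℝ) * (L : ℝ) ^ (1 / 100 : ℝ)) := by
        positivity
      linarith
    exact h5.trans h6

/-- The restricted sums stay at least one half. -/
theorem step3P (C : ℝ) : ∃ L0 : ℕ, ∀ L : ℕ, L0 ≤ L → ∀ (K : ℕ) (N : ℕ → ℝ), 1 ≤ K →
    (∀ m, 0 ≤ N m) → (∀ i j, N (i + j) ≤ N i * N j) →
    (∀ m, m * K ≤ L → 1 / 2 * Real.exp (-(C * (L : ℝ) ^ (3 / 4 : ℝ))) ≤ N m) →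
    ∀ j, ((j * K : ℕ) : ℝ) ≤ (L : ℝ) ^ (1 / 8 : ℝ) → 1 / 2 ≤ N j := by
  have E1 : ∀ᶠ x : ℝ in atTop, 4 * (|C| + 1) ≤ x ^ (1 / 8 : ℝ) := ev_const_le_rpow (by norm_num) _
  have E2 : ∀ᶠ x : ℝ in atTop, (8 : ℝ) ≤ x ^ (7 / 8 : ℝ) := ev_const_le_rpow (by norm_num) _
  have E3 : ∀ᶠ x : ℝ in atTop, (1 : ℝ) ≤ x := eventually_ge_atTop 1
  obtain ⟨x0, hx0⟩ := eventually_atTop.1 (E1.and (E2.and E3))
  obtain ⟨L0, hL0⟩ := exists_nat_ge x0
  refine ⟨L0, fun L hL K N hK hN0 hsub hlow j hj => ?_⟩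
  have hxL : x0 ≤ (L : ℝ) := hL0.trans (by exact_mod_cast hL)
  obtain ⟨F1, F2, F3⟩ := hx0 L hxL
  have hLpos : (0 : ℝ) < L := by linarith
  by_contra hlt
  push Not at hlt
  rcases Nat.eq_zero_or_pos j with hj0 | hj0
  · subst hj0
    have h1 := hsub 0 0
    have h2 : 0 < N 0 := lt_of_lt_of_le (by positivity) (hlow 0 (by omega))
    simp only [add_zero] at h1
    nlinarith
  have hJK : 0 < j * K := Nat.mul_pos hj0 hK
  set i := L / (j * K) with hi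
  have hiL : i * (j * K) ≤ L := Nat.div_mul_le_self L (j * K)
  -- powers
  have hpow : ∀ m : ℕ, 1 ≤ m → N (m * j) ≤ (1 / 2) ^ m := by
    intro m hm
    induction m, hm using Nat.le_induction with
    | base => simpa using hlt.le
    | succ m hm ih =>
      calc N ((m + 1) * j) = N (m * j + j) := by ring_nf
        _ ≤ N (m * j) * N j := hsub _ _
        _ ≤ (1 / 2) ^ m * (1 / 2) := mul_le_mul ih hlt.le (hN0 _) (by positivity)
        _ = (1 / 2) ^ (m + 1) := (pow_succ _ _).symm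
  have hi1 : (L : ℝ) ^ (7 / 8 : ℝ) - 1 ≤ i := by
    have h1 : (L : ℝ) / ((j * K : ℕ) : ℝ) - 1 ≤ i := by
      have := Nat.lt_div_mul_add (a := L) hJK
      have h2 : (L : ℝ) < ((L / (j * K) : ℕ) : ℝ) * ((j * K : ℕ) : ℝ) + ((j * K : ℕ) : ℝ) := by
        exact_mod_cast this
      have h3 : (0 : ℝ) < ((j * K : ℕ) : ℝ) := by exact_mod_cast hJK
      rw [sub_le_iff_le_add, div_le_iff₀ h3, hi]
      nlinarith
    have h2 : (L : ℝ) ^ (7 / 8 : ℝ) ≤ (L : ℝ) / ((j * K : ℕ) : ℝ) := by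
      have h3 : (0 : ℝ) < ((j * K : ℕ) : ℝ) := by exact_mod_cast hJK
      rw [le_div_iff₀ h3]
      calc (L : ℝ) ^ (7 / 8 : ℝ) * ((j * K : ℕ) : ℝ)
          ≤ (L : ℝ) ^ (7 / 8 : ℝ) * (L : ℝ) ^ (1 / 8 : ℝ) :=
            mul_le_mul_of_nonneg_left hj (by positivity)
        _ = L := by rw [← Real.rpow_add hLpos]; norm_num
    linarith
  have hipos : 1 ≤ i := by
    have : (1 : ℝ) ≤ i := by linarith
    exact_mod_cast this
  have h1 : (i * j) * K ≤ L := by rw [mul_assoc]; exact hiL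
  have h2 := (hlow (i * j) h1).trans (hpow i hipos)
  have h3 : ((1 : ℝ) / 2) ^ i = Real.exp (-(i * Real.log 2)) := by
    rw [one_div, inv_pow, Real.exp_neg, mul_comm, Real.exp_mul, Real.exp_log (by norm_num),
      Real.rpow_natCast]
  have h4 : (1 / 2 : ℝ) = Real.exp (-Real.log 2) := by
    rw [Real.exp_neg, Real.exp_log (by norm_num)]; norm_num
  rw [h3] at h2
  nth_rw 1 [h4] at h2
  rw [← Real.exp_add, Real.exp_le_exp] at h2
  -- `(i - 1) log 2 ≤ C L^(3/4)`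
  have h5 : (L : ℝ) ^ (7 / 8 : ℝ) = (L : ℝ) ^ (3 / 4 : ℝ) * (L : ℝ) ^ (1 / 8 : ℝ) := by
    rw [← Real.rpow_add hLpos]; norm_num
  have hlog2 : (1 / 2 : ℝ) ≤ Real.log 2 := by linarith [Real.log_two_gt_d9]
  have h6 : ((i : ℝ) - 1) * Real.log 2 ≤ C * (L : ℝ) ^ (3 / 4 : ℝ) := by linarith
  have h7 : (L : ℝ) ^ (7 / 8 : ℝ) / 2 ≤ (i : ℝ) - 1 := by linarith
  have h8 : (L : ℝ) ^ (7 / 8 : ℝ) / 4 ≤ ((i : ℝ) - 1) * Real.log 2 := by nlinarith
  have h9 : C * (L : ℝ) ^ (3 / 4 : ℝ) ≤ |C| * (L : ℝ) ^ (3 / 4 : ℝ) :=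
    mul_le_mul_of_nonneg_right (le_abs_self C) (by positivity)
  have h10 : 4 * (|C| + 1) * (L : ℝ) ^ (3 / 4 : ℝ) ≤ (L : ℝ) ^ (7 / 8 : ℝ) := by
    rw [h5, mul_comm ((L : ℝ) ^ (3 / 4 : ℝ))]
    exact mul_le_mul_of_nonneg_right F1 (by positivity)
  have h11 : (0 : ℝ) < (L : ℝ) ^ (3 / 4 : ℝ) := by positivity
  nlinarith

end Pool.Agent.W_7d29a1_P78
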