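import Pool.Agent.W_7d29a1_P78.C3
import Pool.Agent.W_7d29a1_P78.Nums
import Pool.Agent.W_7d29a1_h46u.RateU
import Pool.Agent.W_7d29a1_h46u.ConcV

/-!
# Theorem (P): without lucky segments the sums stay at least one half
-/

set_option autoImplicit false

namespace Pool.Agent.W_7d29a1_P78

open MeasureTheory ProbabilityTheory Filter Topology Pool.Agent.W_MP_7d29a1_pr
  Pool.Agent.W_7d29a1_h46 Pool.Agent.W_7d29a1_h46u Pool.Agent.W_7d29a1_D2.B35
  Pool.Agent.W_7d29a1_P89

variable {d : ℕ} {ρ : Measure ℝ}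

/-- Powers with exponent at most one are subadditive. -/
lemma rpow_sum_le78 {ι : Type*} (s : Finset ι) {a : ℝ} (ha : 0 < a) (ha1 : a ≤ 1) (f : ι → ℝ)
    (hf : ∀ i ∈ s, 0 ≤ f i) : (∑ i ∈ s, f i) ^ a ≤ ∑ i ∈ s, f i ^ a := by
  classical
  induction s using Finset.induction_on with
  | empty => simp [Real.zero_rpow ha.ne']
  | insert i s hi ih =>
    rw [Finset.sum_insert hi, Finset.sum_insert hi]
    have h1 : 0 ≤ f i := hf i (Finset.mem_insert_self _ _)
    have h2 : ∀ j ∈ s, 0 ≤ f j := fun j hj => hf j (Finset.mem_insert_of_mem hj)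
    calc (f i + ∑ j ∈ s, f j) ^ a ≤ f i ^ a + (∑ j ∈ s, f j) ^ a :=
          Real.rpow_add_le_add_rpow h1 (Finset.sum_nonneg h2) ha.le ha1
      _ ≤ _ := by linarith [ih h2]

lemma ZH_pos78 (hd : 0 < d) (P : Prm d) (η : Env d) (n : ℕ) : 0 < ZH P η n :=
  mul_pos (Real.exp_pos _) (Z_pos hd _ _ _ _)

lemma measurable_ZH78 (P : Prm d) (n : ℕ) : Measurable fun η : Env d => ZH P η n :=
  (measurable_Z P.be P.h n).const_mul _

lemma ZH_eq78 (P : Prm d) (η : Env d) (n : ℕ) : ZH P η n = ∑ x ∈ boxF d n, W P η n x := by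
  unfold ZH W
  rw [Z_eq_sum, Finset.mul_sum]

lemma W_le_ZH78 (P : Prm d) (η : Env d) (n : ℕ) (x : Site d) : W P η n x ≤ ZH P η n :=
  mul_le_mul_of_nonneg_left (PP_le_Z _ _ _ _ _) (Real.exp_pos _).le

lemma integrable_ZH78 [IsProbabilityMeasure ρ] (hρ : EM ρ) (P : Prm d) (n : ℕ) :
    Integrable (fun η : Env d => ZH P η n) (law d ρ) := by
  unfold ZH
  apply Integrable.const_mul
  have h1 : (fun η : Env d => Z P.be P.h η n) =
      fun η : Env d => ∑ s : Fin n → Step d, wgt P.be P.h η s := by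
    funext η; exact Z_eq _ _ _ _
  rw [h1]
  refine integrable_finsetSum _ fun s _ => ?_
  have h2 := (FreeV_iid (d := d) (ρ := ρ)).integral_exp_energy (hρ P.be) s
  have h3 : (fun η : Env d => wgt P.be P.h η s) = fun η : Env d =>
      Real.exp (inner ℝ P.h (emb (pos s n))) * Real.exp (P.be * energy η s) := by
    funext η
    unfold wgt
    rw [← Real.exp_add]
  rw [h3]
  exact h2.1.const_mul _

lemma rpow_le_one_add78 {x t : ℝ} (hx : 0 ≤ x) (ht : 0 ≤ t) (ht1 : t ≤ 1) : x ^ t ≤ 1 + x := by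
  rcases le_total x 1 with h | h
  · have := Real.rpow_le_one hx h ht
    linarith
  · have h2 : x ^ t ≤ x ^ (1 : ℝ) := Real.rpow_le_rpow_of_exponent_le h ht1
    rw [Real.rpow_one] at h2
    linarith

lemma integrable_W_rpow78 [IsProbabilityMeasure ρ] (hρ : EM ρ) (P : Prm d) (n : ℕ) (x : Site d)
    {t : ℝ} (ht : 0 ≤ t) (ht1 : t ≤ 1) :
    Integrable (fun η : Env d => W P η n x ^ t) (law d ρ) := by
  refine Integrable.mono' ((integrable_const (1 : ℝ)).add (integrable_ZH78 hρ P n))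
    ((measurable_W78 P n x).pow_const t).aestronglyMeasurable ?_
  refine Filter.Eventually.of_forall fun η => ?_
  rw [Real.norm_of_nonneg (Real.rpow_nonneg (W_nonneg78 _ _ _ _) _)]
  have h1 := rpow_le_one_add78 (W_nonneg78 P η n x) ht ht1
  have h2 := W_le_ZH78 P η n x
  simp only [Pi.add_apply]
  linarith

lemma integrable_ZH_rpow78 [IsProbabilityMeasure ρ] (hd : 0 < d) (hρ : EM ρ) (P : Prm d) (n : ℕ)
    {t : ℝ} (ht : 0 ≤ t) (ht1 : t ≤ 1) :
    Integrable (fun η : Env d => ZH P η n ^ t) (law d ρ) := by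
  refine Integrable.mono' ((integrable_const (1 : ℝ)).add (integrable_ZH78 hρ P n))
    ((measurable_ZH78 P n).pow_const t).aestronglyMeasurable ?_
  refine Filter.Eventually.of_forall fun η => ?_
  have h0 := (ZH_pos78 hd P η n).le
  rw [Real.norm_of_nonneg (Real.rpow_nonneg h0 _)]
  exact rpow_le_one_add78 h0 ht ht1

lemma V_nonneg78 (P : Prm d) (η : Env d) (n : ℕ) : 0 ≤ V P η n :=
  Finset.sum_nonneg fun _ _ => Real.rpow_nonneg (W_nonneg78 _ _ _ _) _

lemma measurable_V78 (P : Prm d) (n : ℕ) : Measurable fun η : Env d => V P η n :=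
  Finset.measurable_fun_sum _ fun x _ => (measurable_W78 P n x).pow_const _

lemma integrable_V78 [IsProbabilityMeasure ρ] (hρ : EM ρ) (P : Prm d) (ha : 0 ≤ P.a)
    (ha1 : P.a ≤ 1) (n : ℕ) : Integrable (fun η : Env d => V P η n) (law d ρ) :=
  integrable_finsetSum _ fun x _ => integrable_W_rpow78 hρ P n x ha ha1

lemma ZH_rpow_le_V78 (P : Prm d) (ha : 0 < P.a) (ha1 : P.a ≤ 1) (η : Env d) (n : ℕ) :
    ZH P η n ^ P.a ≤ V P η n := by
  rw [ZH_eq78]
  exact rpow_sum_le78 _ ha ha1 _ fun _ _ => W_nonneg78 _ _ _ _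

lemma measurableSet_Gd78 (P : Prm d) (K : ℕ) (y : Site d) (U : ℝ) (j : ℕ) :
    MeasurableSet {η : Env d | Gd P K y U j η} := by
  have : {η : Env d | Gd P K y U j η} = ⋂ i ∈ Finset.range j, ⋂ z ∈ boxF d (i * K),
      (sh (i * K) z ⁻¹' {η : Env d | Lk P K y U η})ᶜ := by
    ext η
    simp only [Gd, Set.mem_setOf_eq, Set.mem_iInter, Finset.mem_range, Set.mem_compl_iff,
      Set.mem_preimage]
  rw [this]
  refine Finset.measurableSet_biInter _ fun i _ => Finset.measurableSet_biInter _ fun z _ => ?_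
  exact ((measurableSet_Lk78 P K y U).preimage (measurable_sh _ _)).compl

/-- Markov. -/
lemma real_Lk_le78 [IsProbabilityMeasure ρ] (hd : 0 < d) (hρ : EM ρ) (P : Prm d) (ha : 0 < P.a)
    (ha1 : P.a ≤ 1) (hle : ∀ n, aP ρ P n P.a ≤ 1) (K : ℕ) (y : Site d) (U : ℝ) :
    (law d ρ).real {η : Env d | Lk P K y U η} ≤ Real.exp (-(P.a * U)) := by
  have hi := integrable_W_rpow78 (ρ := ρ) hρ P K y ha.le ha1
  have hm := mul_meas_ge_le_integral_of_nonneg
    (Filter.Eventually.of_forall fun η => Real.rpow_nonneg (W_nonneg78 P η K y) P.a) hi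
    (Real.exp (P.a * U))
  have hsub : {η : Env d | Lk P K y U η} ⊆ {η | Real.exp (P.a * U) ≤ W P η K y ^ P.a} := by
    intro η hη
    change Real.exp (P.a * U) ≤ _
    have h1 : Real.exp U ≤ W P η K y := hη
    calc Real.exp (P.a * U) = Real.exp U ^ P.a := by rw [← Real.exp_mul, mul_comm]
      _ ≤ _ := Real.rpow_le_rpow (Real.exp_pos _).le h1 ha.le
  have h2 : ∫ η, W P η K y ^ P.a ∂(law d ρ) ≤ 1 := by
    refine le_trans ?_ (hle K)
    refine integral_mono hi (integrable_ZH_rpow78 hd hρ P K ha.le ha1) fun η => ?_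
    exact Real.rpow_le_rpow (W_nonneg78 _ _ _ _) (W_le_ZH78 _ _ _ _) ha.le
  have h3 : Real.exp (P.a * U) * (law d ρ).real {η : Env d | Lk P K y U η} ≤ 1 := by
    calc Real.exp (P.a * U) * (law d ρ).real {η : Env d | Lk P K y U η}
        ≤ Real.exp (P.a * U) * (law d ρ).real {η | Real.exp (P.a * U) ≤ W P η K y ^ P.a} :=
          mul_le_mul_of_nonneg_left (measureReal_mono hsub) (Real.exp_pos _).le
      _ ≤ 1 := hm.trans h2
  rw [Real.exp_neg, ← one_div, le_div_iff₀ (Real.exp_pos _), mul_comm]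
  exact h3

/-- The union bound. -/
lemma real_Gd_compl_le78 [IsProbabilityMeasure ρ] (P : Prm d) (K : ℕ) (y : Site d) (U : ℝ)
    {q : ℝ} (hq : (law d ρ).real {η : Env d | Lk P K y U η} ≤ q) (hq0 : 0 ≤ q) {L m : ℕ}
    (hK : 1 ≤ K) (hm : m * K ≤ L) :
    (law d ρ).real {η : Env d | Gd P K y U m η}ᶜ ≤ (2 * (L : ℝ) + 1) ^ (d + 1) * q := by
  have hsub : {η : Env d | Gd P K y U m η}ᶜ ⊆ ⋃ i ∈ Finset.range m, ⋃ z ∈ boxF d (i * K),
      (sh (i * K) z ⁻¹' {η : Env d | Lk P K y U η}) := by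
    intro η hη
    simp only [Gd, Set.mem_compl_iff, Set.mem_setOf_eq] at hη
    push Not at hη
    obtain ⟨i, hi, z, hz, h⟩ := hη
    simp only [Set.mem_iUnion, Finset.mem_range]
    exact ⟨i, hi, z, hz, h⟩
  have h1 : ∀ i z, (law d ρ).real (sh (i * K) z ⁻¹' {η : Env d | Lk P K y U η}) ≤ q := by
    intro i z
    unfold Measure.real
    rw [(mp_sh (i * K) z).measure_preimage (measurableSet_Lk78 P K y U).nullMeasurableSet]
    exact hq
  calc (law d ρ).real {η : Env d | Gd P K y U m η}ᶜ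
      ≤ (law d ρ).real (⋃ i ∈ Finset.range m, ⋃ z ∈ boxF d (i * K),
        (sh (i * K) z ⁻¹' {η : Env d | Lk P K y U η})) :=
        measureReal_mono hsub (measure_ne_top _ _)
    _ ≤ ∑ i ∈ Finset.range m, (law d ρ).real (⋃ z ∈ boxF d (i * K),
        (sh (i * K) z ⁻¹' {η : Env d | Lk P K y U η})) := measureReal_biUnion_finset_le _ _
    _ ≤ ∑ i ∈ Finset.range m, (2 * (L : ℝ) + 1) ^ d * q := by
        refine Finset.sum_le_sum fun i hi => ?_
        have hiL : i * K ≤ L := by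
          have : i * K ≤ m * K := Nat.mul_le_mul_right _ (Finset.mem_range.1 hi).le
          omega
        calc (law d ρ).real (⋃ z ∈ boxF d (i * K), (sh (i * K) z ⁻¹' {η : Env d | Lk P K y U η}))
            ≤ ∑ z ∈ boxF d (i * K),
              (law d ρ).real (sh (i * K) z ⁻¹' {η : Env d | Lk P K y U η}) :=
              measureReal_biUnion_finset_le _ _
          _ ≤ ∑ z ∈ boxF d (i * K), q := Finset.sum_le_sum fun z _ => h1 i z
          _ = (2 * ((i * K : ℕ) : ℝ) + 1) ^ d * q := by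
              rw [Finset.sum_const, card_boxF, nsmul_eq_mul]; push_cast; ring
          _ ≤ (2 * (L : ℝ) + 1) ^ d * q := by
              apply mul_le_mul_of_nonneg_right _ hq0
              apply pow_le_pow_left₀ (by positivity)
              have : ((i * K : ℕ) : ℝ) ≤ L := by exact_mod_cast hiL
              linarith
    _ = (m : ℝ) * ((2 * (L : ℝ) + 1) ^ d * q) := by
        rw [Finset.sum_const, Finset.card_range, nsmul_eq_mul]
    _ ≤ (2 * (L : ℝ) + 1) * ((2 * (L : ℝ) + 1) ^ d * q) := by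
        apply mul_le_mul_of_nonneg_right _ (by positivity)
        have h2 : m ≤ L := le_trans (Nat.le_mul_of_pos_right _ hK) hm
        have : (m : ℝ) ≤ L := by exact_mod_cast h2
        have : (0 : ℝ) ≤ L := Nat.cast_nonneg L
        linarith
    _ = (2 * (L : ℝ) + 1) ^ (d + 1) * q := by ring

/-- The free energy is not much below its mean growth, with probability `3/4`. -/
lemma low_prob78 [IsProbabilityMeasure ρ] (hd : 0 < d) (hρ : EM ρ) (P : Prm d)
    (hL : P.Lam = lam ρ P.be P.h) : ∃ C : ℝ, 0 ≤ C ∧ ∀ n : ℕ,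
      3 / 4 ≤ (law d ρ).real {η : Env d | Real.exp (-(C * (n : ℝ) ^ (3 / 4 : ℝ))) ≤ ZH P η n} := by
  obtain ⟨C2, hC2, H2⟩ := momU (ρ := ρ) hd hρ P.be 2
  obtain ⟨δ, hδ, C1, hC1, H1⟩ := rateU hd hρ (by norm_num : (0 : ℝ) ≤ 1 / 2)
    (Fl_half hd hρ P.be P.h) (by norm_num : (0 : ℝ) < 1 / 4) (by norm_num)
  set D : ℝ := 2 * Real.sqrt C2 + 1 with hD
  have hD0 : 0 < D := by positivity
  refine ⟨C1 + D, by positivity, fun n => ?_⟩
  rcases Nat.eq_zero_or_pos n with hn | hn
  · subst hn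
    have h1 : {η : Env d | Real.exp (-((C1 + D) * ((0 : ℕ) : ℝ) ^ (3 / 4 : ℝ))) ≤ ZH P η 0} =
        Set.univ := by
      refine Set.eq_univ_of_forall fun η => ?_
      change Real.exp _ ≤ _
      unfold ZH
      rw [Z_zero]
      simp
    rw [h1]
    simp
    norm_num
  · have hn1 : (1 : ℝ) ≤ n := by exact_mod_cast hn
    have hnpos : (0 : ℝ) < n := by linarith
    obtain ⟨hi, hv⟩ := H2 P.h n hn
    have hr := H1 P.h (by simpa using hδ) n hn
    rw [← hL] at hr
    have hs : ((n : ℝ) ^ (1 / 2 : ℝ)) ≤ (n : ℝ) ^ (3 / 4 : ℝ) :=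
      Real.rpow_le_rpow_of_exponent_le hn1 (by norm_num)
    have e1 : (1 / 2 + 1 / 4 : ℝ) = 3 / 4 := by norm_num
    rw [e1] at hr
    -- the bad event
    have hsub : {η : Env d | Real.exp (-((C1 + D) * (n : ℝ) ^ (3 / 4 : ℝ))) ≤ ZH P η n}ᶜ ⊆
        {η | D ^ 2 * n ≤ |X P.be P.h η n - A ρ P.be P.h n| ^ 2} := by
      intro η hη
      have h1 : ZH P η n < Real.exp (-((C1 + D) * (n : ℝ) ^ (3 / 4 : ℝ))) := not_le.1 hη
      have h2 : Real.log (ZH P η n) < -((C1 + D) * (n : ℝ) ^ (3 / 4 : ℝ)) := by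
        rw [Real.log_lt_iff_lt_exp (ZH_pos78 hd P η n)]
        exact h1
      have h3 : Real.log (ZH P η n) = X P.be P.h η n - n * P.Lam := by
        unfold ZH X
        rw [Real.log_mul (Real.exp_pos _).ne' (Z_pos hd _ _ _ _).ne', Real.log_exp]
        ring
      rw [h3] at h2
      have h4 : D * (n : ℝ) ^ (1 / 2 : ℝ) ≤ A ρ P.be P.h n - X P.be P.h η n := by
        have h5 : D * (n : ℝ) ^ (1 / 2 : ℝ) ≤ D * (n : ℝ) ^ (3 / 4 : ℝ) :=
          mul_le_mul_of_nonneg_left hs hD0.le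
        nlinarith
      change D ^ 2 * n ≤ |X P.be P.h η n - A ρ P.be P.h n| ^ 2
      have h6 : D * (n : ℝ) ^ (1 / 2 : ℝ) ≤ |X P.be P.h η n - A ρ P.be P.h n| := by
        rw [abs_sub_comm]; exact h4.trans (le_abs_self _)
      have h7 : D ^ 2 * (n : ℝ) = (D * (n : ℝ) ^ (1 / 2 : ℝ)) ^ 2 := by
        rw [mul_pow, ← Real.rpow_natCast ((n : ℝ) ^ (1 / 2 : ℝ)) 2, ← Real.rpow_mul hnpos.le]
        norm_num
      rw [h7]
      exact pow_le_pow_left₀ (by positivity) h6 2
    have hmk := mul_meas_ge_le_integral_of_nonneg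
      (Filter.Eventually.of_forall fun η : Env d => sq_nonneg |X P.be P.h η n - A ρ P.be P.h n|)
      hi (D ^ 2 * n)
    have h8 : ∫ η, |X P.be P.h η n - A ρ P.be P.h n| ^ 2 ∂(law d ρ) ≤ C2 * n := by
      refine hv.trans (le_of_eq ?_)
      norm_num
    have h9 : (law d ρ).real {η | D ^ 2 * n ≤ |X P.be P.h η n - A ρ P.be P.h n| ^ 2} ≤ 1 / 4 := by
      have h10 : D ^ 2 * n * (law d ρ).real
          {η | D ^ 2 * n ≤ |X P.be P.h η n - A ρ P.be P.h n| ^ 2} ≤ C2 * n := hmk.trans h8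
      have h11 : 4 * C2 ≤ D ^ 2 := by
        have := Real.sq_sqrt hC2
        have h12 := Real.sqrt_nonneg C2
        rw [hD]; nlinarith
      by_contra hcon
      push Not at hcon
      have h13 : 0 < D ^ 2 * (n : ℝ) := by positivity
      have h15 := mul_lt_mul_of_pos_left hcon h13
      have h16 := mul_le_mul_of_nonneg_right h11 hnpos.le
      have h17 := h15.trans_le h10
      clear h15 h10 hcon hmk h8 hsub hv hi H1 H2 hr
      nlinarith
    have hms : MeasurableSet {η : Env d | Real.exp (-((C1 + D) * (n : ℝ) ^ (3 / 4 : ℝ))) ≤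
        ZH P η n} := measurableSet_le measurable_const (measurable_ZH78 P n)
    have h14 := measureReal_mono (μ := law d ρ) hsub
    rw [measureReal_compl hms] at h14
    simp only [probReal_univ] at h14
    linarith

open Classical in
/-- Without lucky segments the sums stay at least one half. -/
theorem half78 [IsProbabilityMeasure ρ] (hd : 0 < d) (hρ : EM ρ) (P : Prm d) (ha : 0 < P.a)
    (ha1 : P.a ≤ 1) (hL : P.Lam = lam ρ P.be P.h) (hle : ∀ n, aP ρ P n P.a ≤ 1)
    (hsub : ∀ (K : ℕ) (y : Site d) (U : ℝ) (i j : ℕ),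
      NP ρ P K y U (i + j) ≤ NP ρ P K y U i * NP ρ P K y U j) :
    ∃ L1 : ℕ, ∀ L : ℕ, L1 ≤ L → ∀ (K : ℕ) (y : Site d) (U : ℝ), 1 ≤ K →
      (2 * (L : ℝ) + 1) ^ (d + 1) * Real.exp (-(P.a * U)) ≤ 1 / 4 →
      ∀ j : ℕ, ((j * K : ℕ) : ℝ) ≤ (L : ℝ) ^ (1 / 8 : ℝ) → 1 / 2 ≤ NP ρ P K y U j := by
  obtain ⟨C, hC0, hC⟩ := low_prob78 (ρ := ρ) hd hρ P hL
  obtain ⟨L1, h1⟩ := step3P (P.a * C)
  refine ⟨L1, fun L hLL K y U hK hU j hj => ?_⟩
  refine h1 L hLL K (NP ρ P K y U) hK ?_ (hsub K y U) ?_ j hj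
  · intro m
    refine integral_nonneg fun η => ?_
    simp only
    split_ifs
    · exact V_nonneg78 _ _ _
    · exact le_rfl
  · intro m hm
    set G : Set (Env d) := {η | Gd P K y U m η} with hG
    set E : Set (Env d) := {η | Real.exp (-(C * ((m * K : ℕ) : ℝ) ^ (3 / 4 : ℝ))) ≤
      ZH P η (m * K)} with hE
    have hGm : MeasurableSet G := measurableSet_Gd78 P K y U m
    have hEm : MeasurableSet E := measurableSet_le measurable_const (measurable_ZH78 P _)
    have hGc : (law d ρ).real Gᶜ ≤ 1 / 4 :=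
      (real_Gd_compl_le78 P K y U (real_Lk_le78 hd hρ P ha ha1 hle K y U) (Real.exp_pos _).le hK
        hm).trans hU
    have hE34 : 3 / 4 ≤ (law d ρ).real E := hC (m * K)
    have hEc : (law d ρ).real Eᶜ ≤ 1 / 4 := by
      rw [measureReal_compl hEm]; simp only [probReal_univ]; linarith
    have hGE : 1 / 2 ≤ (law d ρ).real (G ∩ E) := by
      have h2 : (law d ρ).real (G ∩ E)ᶜ ≤ 1 / 4 + 1 / 4 := by
        rw [Set.compl_inter]
        exact (measureReal_union_le _ _).trans (add_le_add hGc hEc)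
      rw [measureReal_compl (hGm.inter hEm)] at h2
      simp only [probReal_univ] at h2
      linarith
    set c : ℝ := Real.exp (-(P.a * C * (L : ℝ) ^ (3 / 4 : ℝ))) with hc
    have hpt : ∀ η : Env d, (G ∩ E).indicator (fun _ => c) η ≤
        (if Gd P K y U m η then V P η (m * K) else 0) := by
      intro η
      by_cases hη : η ∈ G ∩ E
      · rw [Set.indicator_of_mem hη, if_pos (show Gd P K y U m η from hη.1)]
        refine le_trans ?_ (ZH_rpow_le_V78 P ha ha1 η (m * K))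
        have h3 : Real.exp (-(C * ((m * K : ℕ) : ℝ) ^ (3 / 4 : ℝ))) ≤ ZH P η (m * K) := hη.2
        have h4 : ((m * K : ℕ) : ℝ) ^ (3 / 4 : ℝ) ≤ (L : ℝ) ^ (3 / 4 : ℝ) :=
          Real.rpow_le_rpow (by positivity) (by exact_mod_cast hm) (by norm_num)
        calc c ≤ Real.exp (-(C * ((m * K : ℕ) : ℝ) ^ (3 / 4 : ℝ))) ^ P.a := by
              rw [hc, ← Real.exp_mul, Real.exp_le_exp]
              have h5 : P.a * C * ((m * K : ℕ) : ℝ) ^ (3 / 4 : ℝ) ≤
                  P.a * C * (L : ℝ) ^ (3 / 4 : ℝ) :=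
                mul_le_mul_of_nonneg_left h4 (mul_nonneg ha.le hC0)
              linarith
          _ ≤ _ := Real.rpow_le_rpow (Real.exp_pos _).le h3 ha.le
      · rw [Set.indicator_of_notMem hη]
        split_ifs
        · exact V_nonneg78 _ _ _
        · exact le_rfl
    have hint : Integrable (fun η : Env d => if Gd P K y U m η then V P η (m * K) else 0)
        (law d ρ) := by
      have h6 : (fun η : Env d => if Gd P K y U m η then V P η (m * K) else 0) =
          G.indicator fun η => V P η (m * K) := by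
        funext η
        by_cases hη : Gd P K y U m η
        · rw [if_pos hη, Set.indicator_of_mem (show η ∈ G from hη)]
        · rw [if_neg hη, Set.indicator_of_notMem (show η ∉ G from hη)]
      rw [h6]
      exact (integrable_V78 hρ P ha.le ha1 _).indicator hGm
    have h7 : ∫ η, (G ∩ E).indicator (fun _ => c) η ∂(law d ρ) ≤ NP ρ P K y U m :=
      integral_mono ((integrable_const c).indicator (hGm.inter hEm)) hint hpt
    rw [integral_indicator_const _ (hGm.inter hEm), smul_eq_mul] at h7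
    refine le_trans ?_ h7
    exact mul_le_mul_of_nonneg_right hGE (Real.exp_pos _).le

end Pool.Agent.W_7d29a1_P78
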