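import Mathlib

/-!
# Theorem (P): two lemmas on moments
`cont_rpow`: continuity of the moment function in the exponent on `[0,1]`; `lucky`: a large moment of order
`t1` gives a lucky level at every exponent `t > t1`.
-/

set_option autoImplicit false

open MeasureTheory Filter Topology

namespace Pool.Agent.W_7d29a1_P78

variable {Ω : Type*} [MeasurableSpace Ω]

theorem cont_rpow {μ : Measure Ω} [IsFiniteMeasure μ] {W : Ω → ℝ} (hW : ∀ ω, 0 < W ω)
    (hm : Measurable W) (hi : Integrable W μ) :
    ContinuousOn (fun t : ℝ => ∫ ω, W ω ^ t ∂μ) (Set.Icc 0 1) := by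
  apply MeasureTheory.continuousOn_of_dominated (bound := fun ω => 1 + W ω)
  · intro t _
    exact (hm.pow_const t).aestronglyMeasurable
  · intro t ht
    refine Filter.Eventually.of_forall fun ω => ?_
    rw [Real.norm_of_nonneg (Real.rpow_nonneg (hW ω).le _)]
    rcases le_total (W ω) 1 with h | h
    · have : W ω ^ t ≤ 1 := Real.rpow_le_one (hW ω).le h ht.1
      linarith [hW ω]
    · have : W ω ^ t ≤ W ω ^ (1 : ℝ) := Real.rpow_le_rpow_of_exponent_le h ht.2
      rw [Real.rpow_one] at this
      linarith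
  · exact (integrable_const 1).add hi
  · refine Filter.Eventually.of_forall fun ω => ?_
    exact (Real.continuous_const_rpow (hW ω).ne').continuousOn

/-- A large moment of order `t1` gives a lucky level at every exponent `t > t1`. -/
theorem lucky {μ : Measure Ω} [IsProbabilityMeasure μ] {V : Ω → ℝ} (hV : ∀ ω, 0 ≤ V ω)
    (hm : Measurable V) {t1 t : ℝ} (h0 : 0 < t1) (h1 : t1 < t)
    (hE : Real.exp t1 + t1 / (t - t1) < ∫ ω, V ω ^ t1 ∂μ) :
    ∃ u : ℝ, 1 ≤ u ∧ Real.exp (-(t * u)) ≤ μ.real {ω | Real.exp u ≤ V ω} := by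
  by_contra hcon
  push Not at hcon
  have htt : 0 < t - t1 := by linarith
  have hB : 0 ≤ Real.exp t1 + t1 / (t - t1) := by positivity
  have hlevel : ∀ s : ℝ, Real.exp 1 < s → μ {ω | s ≤ V ω} ≤ ENNReal.ofReal (s ^ (-t)) := by
    intro s hs
    have hs0 : 0 < s := (Real.exp_pos 1).trans hs
    have hl : 1 ≤ Real.log s := by
      rw [Real.le_log_iff_exp_le hs0]; exact hs.le
    have h := hcon (Real.log s) hl
    rw [Real.exp_log hs0] at h
    have e : Real.exp (-(t * Real.log s)) = s ^ (-t) := by
      rw [Real.rpow_def_of_pos hs0]; ring_nf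
    rw [e] at h
    rw [← ENNReal.ofReal_toReal (measure_ne_top μ {ω | s ≤ V ω})]
    exact ENNReal.ofReal_le_ofReal h.le
  have key : ∫⁻ ω, ENNReal.ofReal (V ω ^ t1) ∂μ ≤
      ENNReal.ofReal (Real.exp t1 + t1 / (t - t1)) := by
    rw [lintegral_rpow_eq_lintegral_meas_le_mul μ (Filter.Eventually.of_forall hV)
      hm.aemeasurable h0]
    have hsplit : Set.Ioi (0 : ℝ) = Set.Ioc 0 (Real.exp 1) ∪ Set.Ioi (Real.exp 1) :=
      (Set.Ioc_union_Ioi_eq_Ioi (Real.exp_pos 1).le).symm
    have hA : ∫⁻ s in Set.Ioc (0 : ℝ) (Real.exp 1), μ {ω | s ≤ V ω} *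
        ENNReal.ofReal (s ^ (t1 - 1)) ≤ ENNReal.ofReal (Real.exp t1 / t1) := by
      have hint : IntegrableOn (fun s : ℝ => s ^ (t1 - 1)) (Set.Ioc 0 (Real.exp 1)) := by
        rw [← intervalIntegrable_iff_integrableOn_Ioc_of_le (Real.exp_pos 1).le]
        exact intervalIntegral.intervalIntegrable_rpow' (by linarith)
      calc ∫⁻ s in Set.Ioc (0 : ℝ) (Real.exp 1), μ {ω | s ≤ V ω} * ENNReal.ofReal (s ^ (t1 - 1))
          ≤ ∫⁻ s in Set.Ioc (0 : ℝ) (Real.exp 1), ENNReal.ofReal (s ^ (t1 - 1)) := by
            apply lintegral_mono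
            intro s
            calc μ {ω | s ≤ V ω} * ENNReal.ofReal (s ^ (t1 - 1))
                ≤ 1 * ENNReal.ofReal (s ^ (t1 - 1)) := mul_le_mul_left prob_le_one _
              _ = _ := one_mul _
        _ = ENNReal.ofReal (∫ s in Set.Ioc (0 : ℝ) (Real.exp 1), s ^ (t1 - 1)) := by
            rw [ofReal_integral_eq_lintegral_ofReal hint]
            filter_upwards [ae_restrict_mem measurableSet_Ioc] with s hs
            exact Real.rpow_nonneg hs.1.le _
        _ = ENNReal.ofReal (Real.exp t1 / t1) := by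
            congr 1
            rw [← intervalIntegral.integral_of_le (Real.exp_pos 1).le,
              integral_rpow (Or.inl (by linarith))]
            rw [sub_add_cancel, Real.zero_rpow h0.ne', sub_zero, Real.exp_one_rpow]
    have hBB : ∫⁻ s in Set.Ioi (Real.exp 1), μ {ω | s ≤ V ω} * ENNReal.ofReal (s ^ (t1 - 1)) ≤
        ENNReal.ofReal (1 / (t - t1)) := by
      have hlt : t1 - 1 - t < -1 := by linarith
      have hint : IntegrableOn (fun s : ℝ => s ^ (t1 - 1 - t)) (Set.Ioi (Real.exp 1)) :=
        integrableOn_Ioi_rpow_of_lt hlt (Real.exp_pos 1)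
      calc ∫⁻ s in Set.Ioi (Real.exp 1), μ {ω | s ≤ V ω} * ENNReal.ofReal (s ^ (t1 - 1))
          ≤ ∫⁻ s in Set.Ioi (Real.exp 1), ENNReal.ofReal (s ^ (t1 - 1 - t)) := by
            apply setLIntegral_mono' measurableSet_Ioi
            intro s hs
            have hs0 : 0 < s := (Real.exp_pos 1).trans hs
            calc μ {ω | s ≤ V ω} * ENNReal.ofReal (s ^ (t1 - 1))
                ≤ ENNReal.ofReal (s ^ (-t)) * ENNReal.ofReal (s ^ (t1 - 1)) :=
                  mul_le_mul_left (hlevel s hs) _
              _ = ENNReal.ofReal (s ^ (t1 - 1 - t)) := by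
                  rw [← ENNReal.ofReal_mul (Real.rpow_nonneg hs0.le _), ← Real.rpow_add hs0]
                  ring_nf
        _ = ENNReal.ofReal (∫ s in Set.Ioi (Real.exp 1), s ^ (t1 - 1 - t)) := by
            rw [ofReal_integral_eq_lintegral_ofReal hint]
            filter_upwards [ae_restrict_mem measurableSet_Ioi] with s hs
            exact Real.rpow_nonneg ((Real.exp_pos 1).trans hs).le _
        _ ≤ ENNReal.ofReal (1 / (t - t1)) := by
            apply ENNReal.ofReal_le_ofReal
            rw [integral_Ioi_rpow_of_lt hlt (Real.exp_pos 1), Real.exp_one_rpow]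
            have e1 : t1 - 1 - t + 1 = -(t - t1) := by ring
            rw [e1, neg_div_neg_eq]
            apply div_le_div_of_nonneg_right _ htt.le
            exact Real.exp_le_one_iff.2 (by linarith)
    calc ENNReal.ofReal t1 * ∫⁻ s in Set.Ioi (0 : ℝ), μ {ω | s ≤ V ω} *
          ENNReal.ofReal (s ^ (t1 - 1))
        ≤ ENNReal.ofReal t1 * (ENNReal.ofReal (Real.exp t1 / t1) +
            ENNReal.ofReal (1 / (t - t1))) := by
          apply mul_le_mul_right
          rw [hsplit, lintegral_union measurableSet_Ioi Set.Ioc_disjoint_Ioi_same]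
          exact add_le_add hA hBB
      _ = ENNReal.ofReal (Real.exp t1 + t1 / (t - t1)) := by
          rw [← ENNReal.ofReal_add (by positivity) (by positivity),
            ← ENNReal.ofReal_mul h0.le]
          congr 1
          field_simp
  -- back to the real integral
  by_cases hi : Integrable (fun ω => V ω ^ t1) μ
  · have h2 := ofReal_integral_eq_lintegral_ofReal hi
      (Filter.Eventually.of_forall fun ω => Real.rpow_nonneg (hV ω) _)
    rw [← h2] at key
    have h3 := (ENNReal.ofReal_le_ofReal_iff hB).1 key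
    linarith
  · rw [integral_undef hi] at hE
    linarith

end Pool.Agent.W_7d29a1_P78
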