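import Pool.Agent.W_7d29a1_P78.Abs
import Pool.Agent.W_7d29a1_P78.Meas
import Pool.Agent.W_7d29a1_P78.C1
import Pool.Agent.W_7d29a1_P78.C2
import Pool.Agent.W_7d29a1_P25.B

/-!
# Theorem (P): the final assembly
-/

set_option autoImplicit false

namespace Pool.Agent.W_7d29a1_P78

open MeasureTheory ProbabilityTheory Filter Topology Pool.Agent.W_MP_7d29a1_pr
  Pool.Agent.W_7d29a1_h46 Pool.Agent.W_7d29a1_h46u Pool.Agent.W_7d29a1_D2.B35
  Pool.Agent.W_7d29a1_P89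

variable {d : ℕ} {ρ : Measure ℝ}

lemma MP_le78 [IsProbabilityMeasure ρ] (hd : 0 < d) (hρ : EM ρ) (P : Prm d) (ha : 0 < P.a)
    (ha1 : P.a ≤ 1) (hle : ∀ n, aP ρ P n P.a ≤ 1) (n : ℕ) :
    MP ρ P n ≤ (2 * (n : ℝ) + 1) ^ d := by
  unfold MP V
  rw [integral_finsetSum _ fun x _ => integrable_W_rpow78 hρ P n x ha.le ha1]
  calc ∑ x ∈ boxF d n, ∫ η, W P η n x ^ P.a ∂(law d ρ) ≤ ∑ _x ∈ boxF d n, (1 : ℝ) := by
        refine Finset.sum_le_sum fun x _ => le_trans ?_ (hle n)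
        refine integral_mono (integrable_W_rpow78 hρ P n x ha.le ha1)
          (integrable_ZH_rpow78 hd hρ P n ha.le ha1) fun η => ?_
        exact Real.rpow_le_rpow (W_nonneg78 _ _ _ _) (W_le_ZH78 _ _ _ _) ha.le
    _ = (2 * (n : ℝ) + 1) ^ d := by
        rw [Finset.sum_const, card_boxF, nsmul_eq_mul]; push_cast; ring

lemma aP_le_MP78 [IsProbabilityMeasure ρ] (hd : 0 < d) (hρ : EM ρ) (P : Prm d) (ha : 0 < P.a)
    (ha1 : P.a ≤ 1) (n : ℕ) : aP ρ P n P.a ≤ MP ρ P n :=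
  integral_mono (integrable_ZH_rpow78 hd hρ P n ha.le ha1) (integrable_V78 hρ P ha.le ha1 n)
    fun η => ZH_rpow_le_V78 P ha ha1 η n

/-- The moment of one end point is large. -/
lemma exists_end78 [IsProbabilityMeasure ρ] (hd : 0 < d) (hρ : EM ρ) (P : Prm d) {t C : ℝ}
    (ht : 0 < t) (ht1 : t ≤ 1) {n : ℕ} (h : C * (2 * (n : ℝ) + 1) ^ d < aP ρ P n t) :
    ∃ x : Site d, C < ∫ η, W P η n x ^ t ∂(law d ρ) := by
  by_contra hcon
  push Not at hcon
  have h1 : aP ρ P n t ≤ ∑ x ∈ boxF d n, ∫ η, W P η n x ^ t ∂(law d ρ) := by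
    rw [← integral_finsetSum _ fun x _ => integrable_W_rpow78 hρ P n x ht.le ht1]
    refine integral_mono (integrable_ZH_rpow78 hd hρ P n ht.le ht1)
      (integrable_finsetSum _ fun x _ => integrable_W_rpow78 hρ P n x ht.le ht1) fun η => ?_
    simp only
    rw [ZH_eq78]
    exact rpow_sum_le78 _ ht ht1 _ fun _ _ => W_nonneg78 _ _ _ _
  have h2 : ∑ x ∈ boxF d n, ∫ η, W P η n x ^ t ∂(law d ρ) ≤ C * (2 * (n : ℝ) + 1) ^ d := by
    calc ∑ x ∈ boxF d n, ∫ η, W P η n x ^ t ∂(law d ρ) ≤ ∑ _x ∈ boxF d n, C :=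
          Finset.sum_le_sum fun x _ => hcon x
      _ = C * (2 * (n : ℝ) + 1) ^ d := by
          rw [Finset.sum_const, card_boxF, nsmul_eq_mul]; push_cast; ring
  linarith

/-- **Theorem (P)**, first form: some moment of order `t` is larger than one, for every `t > 0`. -/
theorem mainP78 [IsProbabilityMeasure ρ] (hd : 0 < d) (hρ : EM ρ) (P0 : Prm d)
    (hL : P0.Lam = lam ρ P0.be P0.h)
    (hvs : lam ρ P0.be P0.h < Real.log (∫ x, Real.exp (P0.be * x) ∂ρ) +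
      Real.log (∑ e : Step d, Real.exp (inner ℝ P0.h (emb (vec e)))))
    (hMP : ∀ P : Prm d, 0 < P.a → P.a ≤ 1 → ∀ m n, MP ρ P (m + n) ≤ MP ρ P m * MP ρ P n)
    (hNP : ∀ P : Prm d, 0 < P.a → P.a ≤ 1 → ∀ (K : ℕ) (y : Site d) (U : ℝ) (i j : ℕ),
      NP ρ P K y U (i + j) ≤ NP ρ P K y U i * NP ρ P K y U j)
    (hG : ∀ P : Prm d, 0 < P.a → P.a ≤ 1 → ∀ (K : ℕ) (y : Site d) (U : ℝ) (L J : ℕ), 1 ≤ K →
      J * K ≤ L → (2 * (L : ℝ) + 1) ^ d * (law d ρ).real {η | Lk P K y U η} ≤ 1 / 4 →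
      ∑ j ∈ Finset.range J, (3 / 4 / (2 * (K : ℝ) + 1) ^ d * Real.exp (P.a * U) *
        (law d ρ).real {η | Lk P K y U η}) * NP ρ P K y U j * MP ρ P (L - (j + 1) * K) ≤
        MP ρ P L)
    {t0 : ℝ} (h0 : 0 < t0) (h1 : t0 ≤ 1) : ∃ n, 1 < aP ρ P0 n t0 := by
  by_contra hneg
  push Not at hneg
  have hpos : ∀ n t, 0 ≤ t → t ≤ 1 → 0 < aP ρ P0 n t := by
    intro n t ht ht1
    unfold aP
    rw [integral_pos_iff_support_of_nonneg
      (fun η => Real.rpow_nonneg (ZH_pos78 hd P0 η n).le _)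
      (integrable_ZH_rpow78 hd hρ P0 n ht ht1)]
    have : Function.support (fun η : Env d => ZH P0 η n ^ t) = Set.univ := by
      refine Set.eq_univ_of_forall fun η => ?_
      exact (Real.rpow_pos_of_pos (ZH_pos78 hd P0 η n) t).ne'
    rw [this, measure_univ]
    exact one_pos
  obtain ⟨ts, hts0, hts1, htsle, htsgt⟩ := setupP (a := fun n t => aP ρ P0 n t)
    (fun n => cont_rpow (fun η => ZH_pos78 hd P0 η n) (measurable_ZH78 P0 n)
      (integrable_ZH78 hρ P0 n)) hpos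
    (fun m n t ht ht1 => Pool.Agent.W_7d29a1_P25.superA hd hρ P0 ht ht1 m n)
    (Pool.Agent.W_7d29a1_P25.oneA hd hρ P0 hL hvs) h0 h1 hneg
  -- the parameters at the critical exponent
  set P : Prm d := ⟨P0.Lam, P0.be, P0.h, ts⟩ with hP
  have hPa : P.a = ts := rfl
  have hPle : ∀ n, aP ρ P n P.a ≤ 1 := htsle
  have hMge : ∀ n, 1 ≤ MP ρ P n := by
    refine M_ge_one (a := fun n => aP ρ P n P.a) (hMP P hts0 hts1.le)
      (aP_le_MP78 hd hρ P hts0 hts1.le) ?_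
    intro e he
    exact Pool.Agent.W_7d29a1_P25.lowA hd hρ P hL hts0.le hts1.le e he
  refine iterP (M := MP ρ P) (d := d) hMge (MP_le78 hd hρ P hts0 hts1.le hPle) ?_
  -- the exponents `t1 < t`
  have hd1 : (0 : ℝ) < (d : ℝ) + 1 := by positivity
  set e0 : ℝ := min (ts / (100 * ((d : ℝ) + 1))) ((1 - ts) / 2) with he0
  have he0pos : 0 < e0 := lt_min (by positivity) (by linarith)
  set t : ℝ := ts + e0 with ht
  set t1 : ℝ := ts + e0 / 2 with ht1
  have htlt : ts < t := by linarith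
  have ht1lt : ts < t1 := by linarith
  have ht1t : t1 < t := by linarith
  have htle : t ≤ 1 := by
    have : e0 ≤ (1 - ts) / 2 := min_le_right _ _
    linarith
  have hcl : ((d : ℝ) + 1) * (t - P.a) / P.a ≤ 1 / 100 := by
    rw [hPa]
    have h2 : t - ts = e0 := by rw [ht]; ring
    rw [h2, div_le_iff₀ hts0]
    have h3 : e0 ≤ ts / (100 * ((d : ℝ) + 1)) := min_le_left _ _
    calc ((d : ℝ) + 1) * e0 ≤ ((d : ℝ) + 1) * (ts / (100 * ((d : ℝ) + 1))) :=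
          mul_le_mul_of_nonneg_left h3 hd1.le
      _ = 1 / 100 * ts := by field_simp
  -- the lucky pair
  obtain ⟨k, hk1, hk⟩ := htsgt t1 ht1lt (ht1t.le.trans htle)
    (Real.exp t1 + t1 / (t - t1)) d
  have ht1pos : 0 < t1 := hts0.trans ht1lt
  obtain ⟨y, hy⟩ := exists_end78 hd hρ P0 ht1pos (ht1t.le.trans htle) hk
  obtain ⟨u, hu1, hu⟩ := lucky (μ := law d ρ) (V := fun η => W P0 η k y)
    (fun η => W_nonneg78 P0 η k y) (measurable_W78 P0 k y) ht1pos ht1t hy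
  set p : ℝ := (law d ρ).real {η : Env d | Lk P k y u η} with hp
  have hpu : Real.exp (-(t * u)) ≤ p := hu
  obtain ⟨LA, hLA⟩ := numsC1 (d := d) (k := k) (a := P.a) (t := t) (u := u) (p := p) hts0 htlt hcl
    hu1 hk1 hpu
  obtain ⟨LB, hLB⟩ := half78 hd hρ P hts0 hts1.le hL hPle (hNP P hts0 hts1.le)
  refine ⟨max LA LB, fun L hLL => ?_⟩
  obtain ⟨r, J, hr1, hJ, hU, hJK, hJ8, hgain⟩ := hLA L ((le_max_left _ _).trans hLL)
  have hK1 : 1 ≤ r * k := Nat.mul_pos hr1 hk1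
  set q : ℝ := (law d ρ).real {η : Env d | Lk P (r * k) (r • y) ((r : ℝ) * u) η} with hq
  have hpq : p ^ r ≤ q := concat78 P k y u r
  have hqle : q ≤ Real.exp (-(P.a * ((r : ℝ) * u))) :=
    real_Lk_le78 hd hρ P hts0 hts1.le hPle _ _ _
  have hLpos : (0 : ℝ) ≤ L := Nat.cast_nonneg L
  have hq4 : (2 * (L : ℝ) + 1) ^ d * q ≤ 1 / 4 := by
    refine le_trans ?_ hU
    apply mul_le_mul _ hqle measureReal_nonneg (by positivity)
    exact pow_le_pow_right₀ (by linarith) (Nat.le_succ d)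
  have hJKL : J * (r * k) ≤ L := by
    have : J * (r * k) ≤ (J + 1) * (r * k) := Nat.mul_le_mul_right _ (Nat.le_succ J)
    omega
  have hgr := hG P hts0 hts1.le (r * k) (r • y) ((r : ℝ) * u) L J hK1 hJKL hq4
  have hNhalf : ∀ j, j < J → 1 / 2 ≤ NP ρ P (r * k) (r • y) ((r : ℝ) * u) j := by
    intro j hj
    refine hLB L ((le_max_right _ _).trans hLL) (r * k) (r • y) ((r : ℝ) * u) hK1 hU j ?_
    refine le_trans ?_ hJ8
    exact_mod_cast Nat.mul_le_mul_right _ hj.le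
  have hcoef : 0 ≤ 3 / 4 / (2 * ((r * k : ℕ) : ℝ) + 1) ^ d * Real.exp (P.a * ((r : ℝ) * u)) := by
    positivity
  have hq0 : 0 ≤ q := measureReal_nonneg
  have hp0 : 0 ≤ p := measureReal_nonneg
  refine growP (M := MP ρ P) (K := r * k) (J := J) (L := L)
    (c := fun j => (3 / 4 / (2 * ((r * k : ℕ) : ℝ) + 1) ^ d * Real.exp (P.a * ((r : ℝ) * u)) * q) *
      NP ρ P (r * k) (r • y) ((r : ℝ) * u) j) ?_ hJ hJK ?_ (fun n => by linarith [hMge n]) hgr
  · intro j hj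
    have := hNhalf j hj
    exact mul_nonneg (mul_nonneg hcoef hq0) (by linarith)
  · refine hgain.trans (Finset.sum_le_sum fun j hj => ?_)
    have hj' := hNhalf j (Finset.mem_range.1 hj)
    apply mul_le_mul (mul_le_mul_of_nonneg_left hpq hcoef) hj' (by norm_num)
    exact mul_nonneg hcoef hq0

end Pool.Agent.W_7d29a1_P78
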