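import Pool.Agent.W_7d29a1_P89.Defs

/-!
# Theorem (P): lucky segments can be concatenated
-/

set_option autoImplicit false

namespace Pool.Agent.W_7d29a1_P78

open MeasureTheory ProbabilityTheory Filter Topology Pool.Agent.W_MP_7d29a1_pr
  Pool.Agent.W_7d29a1_h46 Pool.Agent.W_7d29a1_h46u Pool.Agent.W_7d29a1_D2.B35
  Pool.Agent.W_7d29a1_P89

variable {d : ℕ} {ρ : Measure ℝ}

lemma measurable_W78 (P : Prm d) (n : ℕ) (x : Site d) : Measurable fun η : Env d => W P η n x :=
  (measurable_ZT P.be P.h _).const_mul _

lemma W_nonneg78 (P : Prm d) (η : Env d) (n : ℕ) (x : Site d) : 0 ≤ W P η n x :=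
  mul_nonneg (Real.exp_pos _).le (PP_nonneg _ _ _ _ _)

lemma W_chain78 (P : Prm d) (η : Env d) (m n : ℕ) (z w : Site d) :
    W P η m z * W P (sh m z η) n w ≤ W P η (m + n) (z + w) := by
  unfold W
  have h := PP_chain P.be P.h η m n z w
  have e : Real.exp (-(((m + n : ℕ) : ℝ) * P.Lam)) =
      Real.exp (-((m : ℝ) * P.Lam)) * Real.exp (-((n : ℝ) * P.Lam)) := by
    rw [← Real.exp_add]; push_cast; ring_nf
  rw [e]
  calc Real.exp (-((m : ℝ) * P.Lam)) * PP P.be P.h η m z *
        (Real.exp (-((n : ℝ) * P.Lam)) * PP P.be P.h (sh m z η) n w)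
      = Real.exp (-((m : ℝ) * P.Lam)) * Real.exp (-((n : ℝ) * P.Lam)) *
        (PP P.be P.h η m z * PP P.be P.h (sh m z η) n w) := by ring
    _ ≤ _ := mul_le_mul_of_nonneg_left h (by positivity)

lemma dependsOn_W78 (P : Prm d) (n : ℕ) (x : Site d) :
    DependsOn (fun η : Env d => W P η n x) {p | 1 ≤ p.1 ∧ p.1 ≤ n} := by
  classical
  intro η η' hη
  have h1 : ∀ s : Fin n → Step d, energy η s = energy η' s := by
    intro s
    unfold energy
    refine Finset.sum_congr rfl fun i _ => hη _ ?_
    exact ⟨Nat.le_add_left 1 i, i.2⟩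
  simp only [W, PP, ZT]
  congr 1
  refine Finset.sum_congr rfl fun s _ => ?_
  unfold wgt
  rw [h1 s]

lemma measurableSet_Lk78 (P : Prm d) (K : ℕ) (y : Site d) (U : ℝ) :
    MeasurableSet {η : Env d | Lk P K y U η} :=
  measurableSet_le measurable_const (measurable_W78 P K y)

/-- Independence of two events. -/
lemma real_indep78 [IsProbabilityMeasure ρ] (S : Set (ℕ × Site d)) {A B : Set (Env d)}
    (hA : MeasurableSet A) (hB : MeasurableSet B)
    (hAS : DependsOn (A.indicator fun _ => (1 : ℝ)) S)
    (hBS : DependsOn (B.indicator fun _ => (1 : ℝ)) Sᶜ) :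
    (law d ρ).real (A ∩ B) = (law d ρ).real A * (law d ρ).real B := by
  have h := integral_indep (ρ := ρ) S (F := A.indicator fun _ => (1 : ℝ))
    (G := B.indicator fun _ => (1 : ℝ)) (measurable_const.indicator hA)
    (measurable_const.indicator hB) hAS hBS
  have e : (fun η : Env d => A.indicator (fun _ => (1 : ℝ)) η * B.indicator (fun _ => (1 : ℝ)) η) =
      (A ∩ B).indicator fun _ => (1 : ℝ) := by
    funext η
    by_cases h1 : η ∈ A <;> by_cases h2 : η ∈ B <;> simp [h1, h2]
  rw [e, integral_indicator_const _ (hA.inter hB), integral_indicator_const _ hA,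
    integral_indicator_const _ hB] at h
  simpa using h

/-- Concatenation. -/
theorem concat78 [IsProbabilityMeasure ρ] (P : Prm d) (k : ℕ) (y : Site d) (u : ℝ) (r : ℕ) :
    (law d ρ).real {η | Lk P k y u η} ^ r ≤
      (law d ρ).real {η | Lk P (r * k) (r • y) ((r : ℝ) * u) η} := by
  induction r with
  | zero =>
    have h1 : {η : Env d | Lk P (0 * k) (0 • y) (((0 : ℕ) : ℝ) * u) η} = Set.univ := by
      refine Set.eq_univ_of_forall fun η => ?_
      change Real.exp _ ≤ W P η (0 * k) (0 • y)
      have h2 := Z_eq_sum P.be P.h η 0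
      have hb : boxF d 0 = {0} := by
        ext z
        rw [mem_boxF, Finset.mem_singleton]
        constructor
        · intro h
          funext i
          have := h i
          simpa using this
        · rintro rfl i
          simp
      rw [Z_zero, hb, Finset.sum_singleton] at h2
      rw [zero_mul, zero_smul]
      unfold W
      rw [← h2]
      simp
    rw [h1, pow_zero]
    simp
  | succ r ih =>
    set A : Set (Env d) := {η | Lk P k y u η} with hA
    set B0 : Set (Env d) := {η | Lk P (r * k) (r • y) ((r : ℝ) * u) η} with hB0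
    set B : Set (Env d) := sh k y ⁻¹' B0 with hB
    have hAm : MeasurableSet A := measurableSet_Lk78 P k y u
    have hB0m : MeasurableSet B0 := measurableSet_Lk78 P _ _ _
    have hBm : MeasurableSet B := hB0m.preimage (measurable_sh k y)
    have hsub : A ∩ B ⊆ {η | Lk P ((r + 1) * k) ((r + 1) • y) (((r + 1 : ℕ) : ℝ) * u) η} := by
      rintro η ⟨h1, h2⟩
      change Real.exp _ ≤ _
      have h1' : Real.exp u ≤ W P η k y := h1
      have h2' : Real.exp ((r : ℝ) * u) ≤ W P (sh k y η) (r * k) (r • y) := h2
      have h3 := W_chain78 P η k (r * k) y (r • y)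
      have e1 : k + r * k = (r + 1) * k := by ring
      have e2 : y + r • y = (r + 1) • y := by rw [add_smul, one_smul, add_comm]
      rw [e1, e2] at h3
      refine le_trans ?_ h3
      have e3 : Real.exp (((r + 1 : ℕ) : ℝ) * u) = Real.exp u * Real.exp ((r : ℝ) * u) := by
        rw [← Real.exp_add]; push_cast; ring_nf
      rw [e3]
      exact mul_le_mul h1' h2' (Real.exp_pos _).le (W_nonneg78 _ _ _ _)
    have hdA : DependsOn (A.indicator fun _ => (1 : ℝ)) {p : ℕ × Site d | p.1 ≤ k} := by
      intro η η' hη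
      have h := dependsOn_W78 P k y fun p (hp : p ∈ {p : ℕ × Site d | 1 ≤ p.1 ∧ p.1 ≤ k}) =>
        hη p hp.2
      have h' : W P η k y = W P η' k y := h
      by_cases hm : η ∈ A
      · have hm' : η' ∈ A := by
          change Real.exp u ≤ _; rw [← h']; exact hm
        rw [Set.indicator_of_mem hm, Set.indicator_of_mem hm']
      · have hm' : η' ∉ A := by
          intro hc
          exact hm (by change Real.exp u ≤ _; rw [h']; exact hc)
        rw [Set.indicator_of_notMem hm, Set.indicator_of_notMem hm']
    have hdB : DependsOn (B.indicator fun _ => (1 : ℝ)) {p : ℕ × Site d | p.1 ≤ k}ᶜ := by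
      intro η η' hη
      have hh : ∀ p ∈ {p : ℕ × Site d | 1 ≤ p.1 ∧ p.1 ≤ r * k}, sh k y η p = sh k y η' p := by
        intro p hp
        refine hη (p.1 + k, p.2 + y) ?_
        have hp1 : 1 ≤ p.1 := hp.1
        change ¬ (p.1 + k ≤ k)
        omega
      have h' : W P (sh k y η) (r * k) (r • y) = W P (sh k y η') (r * k) (r • y) :=
        dependsOn_W78 P (r * k) (r • y) hh
      by_cases hm : η ∈ B
      · have hm' : η' ∈ B := by
          change Real.exp _ ≤ _; rw [← h']; exact hm
        rw [Set.indicator_of_mem hm, Set.indicator_of_mem hm']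
      · have hm' : η' ∉ B := by
          intro hc
          exact hm (by change Real.exp _ ≤ _; rw [h']; exact hc)
        rw [Set.indicator_of_notMem hm, Set.indicator_of_notMem hm']
    have hBr : (law d ρ).real B = (law d ρ).real B0 := by
      unfold Measure.real
      rw [hB, (mp_sh k y).measure_preimage hB0m.nullMeasurableSet]
    calc (law d ρ).real A ^ (r + 1) = (law d ρ).real A * (law d ρ).real A ^ r := by ring
      _ ≤ (law d ρ).real A * (law d ρ).real B := by
          rw [hBr]; exact mul_le_mul_of_nonneg_left ih measureReal_nonneg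
      _ = (law d ρ).real (A ∩ B) := (real_indep78 _ hAm hBm hdA hdB).symm
      _ ≤ _ := measureReal_mono hsub

end Pool.Agent.W_7d29a1_P78
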