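import Mathlib

/-!
# Theorem (P): the abstract real number parts
`iterP`: the final iteration; `growP`: from a sum over many scales to one scale; `setupP`: the critical
exponent; `M_ge_one`: a submultiplicative sequence which does not decay is at least one.
-/

set_option autoImplicit false

open Filter Topology

namespace Pool.Agent.W_7d29a1_P78

/-- The final iteration. -/
theorem iterP {M : ℕ → ℝ} {d : ℕ} (h1 : ∀ n, 1 ≤ M n)
    (hd : ∀ n, M n ≤ (2 * (n : ℝ) + 1) ^ d)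
    (hg : ∃ L0 : ℕ, ∀ L : ℕ, L0 ≤ L → ∃ s : ℕ, L ≤ 2 * s ∧ s ≤ L ∧
      (L : ℝ) ^ (1 / 9 : ℝ) * M s ≤ M L) : False := by
  obtain ⟨L0, hL0⟩ := hg
  -- iterate
  have key : ∀ q : ℕ, ∀ L : ℕ, 2 ^ q * L0 ≤ L → 2 ^ q ≤ L →
      (((L : ℝ) / 2 ^ q) ^ (1 / 9 : ℝ)) ^ q ≤ M L := by
    intro q
    induction q with
    | zero => intro L _ _; simpa using h1 L
    | succ q ih =>
      intro L hL hL2
      have hLL0 : L0 ≤ L := le_trans (Nat.le_mul_of_pos_left _ (by positivity)) hL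
      obtain ⟨s, hs1, hs2, hs3⟩ := hL0 L hLL0
      have e1 : 2 ^ q * L0 ≤ s := by
        have : 2 * (2 ^ q * L0) ≤ 2 * s := by
          calc 2 * (2 ^ q * L0) = 2 ^ (q + 1) * L0 := by ring
            _ ≤ L := hL
            _ ≤ 2 * s := hs1
        omega
      have e2 : 2 ^ q ≤ s := by
        have : 2 * 2 ^ q ≤ 2 * s := by
          calc 2 * 2 ^ q = 2 ^ (q + 1) := by ring
            _ ≤ L := hL2
            _ ≤ 2 * s := hs1
        omega
      have h3 := ih s e1 e2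
      have hLpos : (0 : ℝ) ≤ L := Nat.cast_nonneg L
      have hA : ((L : ℝ) / 2 ^ (q + 1)) ^ (1 / 9 : ℝ) ≤ (L : ℝ) ^ (1 / 9 : ℝ) := by
        apply Real.rpow_le_rpow (by positivity) _ (by norm_num)
        exact div_le_self hLpos (one_le_pow₀ (by norm_num))
      have hB : ((L : ℝ) / 2 ^ (q + 1)) ^ (1 / 9 : ℝ) ≤ ((s : ℝ) / 2 ^ q) ^ (1 / 9 : ℝ) := by
        apply Real.rpow_le_rpow (by positivity) _ (by norm_num)
        have hs1' : (L : ℝ) ≤ 2 * s := by exact_mod_cast hs1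
        rw [pow_succ, div_le_div_iff₀ (by positivity) (by positivity)]
        have : (0 : ℝ) < 2 ^ q := by positivity
        nlinarith
      have hn : 0 ≤ ((L : ℝ) / 2 ^ (q + 1)) ^ (1 / 9 : ℝ) := by positivity
      calc (((L : ℝ) / 2 ^ (q + 1)) ^ (1 / 9 : ℝ)) ^ (q + 1)
          = ((L : ℝ) / 2 ^ (q + 1)) ^ (1 / 9 : ℝ) *
            (((L : ℝ) / 2 ^ (q + 1)) ^ (1 / 9 : ℝ)) ^ q := by ring
        _ ≤ (L : ℝ) ^ (1 / 9 : ℝ) * (((s : ℝ) / 2 ^ q) ^ (1 / 9 : ℝ)) ^ q := by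
            apply mul_le_mul hA (pow_le_pow_left₀ hn hB q) (by positivity) (by positivity)
        _ ≤ (L : ℝ) ^ (1 / 9 : ℝ) * M s := by
            apply mul_le_mul_of_nonneg_left h3 (by positivity)
        _ ≤ M L := hs3
  -- contradiction at `q = 9 (d + 1)`
  set q := 9 * (d + 1) with hq
  have key2 : ∀ L : ℕ, 2 ^ q * L0 ≤ L → 2 ^ q ≤ L → 1 ≤ L →
      (L : ℝ) ≤ 3 ^ d * (2 ^ q) ^ (d + 1) := by
    intro L hL hL2 hL1
    have hL1' : (1 : ℝ) ≤ L := by exact_mod_cast hL1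
    have h := (key q L hL hL2).trans (hd L)
    have hx : (((L : ℝ) / 2 ^ q) ^ (1 / 9 : ℝ)) ^ q = ((L : ℝ) / 2 ^ q) ^ (d + 1) := by
      rw [← Real.rpow_natCast, ← Real.rpow_mul (by positivity)]
      have : (1 / 9 : ℝ) * ((q : ℕ) : ℝ) = ((d + 1 : ℕ) : ℝ) := by
        rw [hq]; push_cast; ring
      rw [this, Real.rpow_natCast]
    rw [hx, div_pow] at h
    have h2 : (L : ℝ) ^ (d + 1) ≤ (2 * (L : ℝ) + 1) ^ d * (2 ^ q) ^ (d + 1) := by
      rwa [div_le_iff₀ (by positivity)] at h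
    have h3 : (2 * (L : ℝ) + 1) ^ d ≤ (3 * L) ^ d :=
      pow_le_pow_left₀ (by positivity) (by linarith) d
    have h4 : (L : ℝ) ^ (d + 1) ≤ (3 ^ d * (2 ^ q) ^ (d + 1)) * (L : ℝ) ^ d := by
      calc (L : ℝ) ^ (d + 1) ≤ (2 * (L : ℝ) + 1) ^ d * (2 ^ q) ^ (d + 1) := h2
        _ ≤ (3 * L) ^ d * (2 ^ q) ^ (d + 1) := by
            apply mul_le_mul_of_nonneg_right h3 (by positivity)
        _ = _ := by rw [mul_pow]; ring
    have hLd : (0 : ℝ) < (L : ℝ) ^ d := by positivity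
    have h5 : (L : ℝ) * (L : ℝ) ^ d ≤ (3 ^ d * (2 ^ q) ^ (d + 1)) * (L : ℝ) ^ d := by
      calc (L : ℝ) * (L : ℝ) ^ d = (L : ℝ) ^ (d + 1) := by ring
        _ ≤ _ := h4
    exact le_of_mul_le_mul_right h5 hLd
  obtain ⟨B, hB⟩ := exists_nat_gt ((3 : ℝ) ^ d * (2 ^ q) ^ (d + 1))
  have aux : ∀ B R P : ℕ, R ≤ B + R + P + 1 ∧ P ≤ B + R + P + 1 ∧ 1 ≤ B + R + P + 1 ∧
      B ≤ B + R + P + 1 := by
    intro B R P; omega
  obtain ⟨a1, a2, a3, a4⟩ := aux B (2 ^ q * L0) (2 ^ q)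
  have h := key2 (B + 2 ^ q * L0 + 2 ^ q + 1) a1 a2 a3
  have h6 : (B : ℝ) ≤ ((B + 2 ^ q * L0 + 2 ^ q + 1 : ℕ) : ℝ) := by
    exact_mod_cast a4
  linarith

/-- From a sum over scales to one scale. -/
theorem growP {M c : ℕ → ℝ} {L K J : ℕ} (hc : ∀ j, j < J → 0 ≤ c j) (hJ : 0 < J)
    (hK : 2 * ((J + 1) * K) ≤ L)
    (hcs : (L : ℝ) ^ (1 / 9 : ℝ) ≤ ∑ j ∈ Finset.range J, c j)
    (hM0 : ∀ n, 0 ≤ M n)
    (h : ∑ j ∈ Finset.range J, c j * M (L - (j + 1) * K) ≤ M L) :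
    ∃ s : ℕ, L ≤ 2 * s ∧ s ≤ L ∧ (L : ℝ) ^ (1 / 9 : ℝ) * M s ≤ M L := by
  obtain ⟨j0, hj0, hmin⟩ := (Finset.range J).exists_min_image (fun j => M (L - (j + 1) * K))
    ⟨0, Finset.mem_range.2 hJ⟩
  refine ⟨L - (j0 + 1) * K, ?_, Nat.sub_le _ _, ?_⟩
  · have h1 : j0 < J := Finset.mem_range.1 hj0
    have h2 : (j0 + 1) * K ≤ (J + 1) * K := Nat.mul_le_mul_right _ (by omega)
    omega
  · calc (L : ℝ) ^ (1 / 9 : ℝ) * M (L - (j0 + 1) * K)
        ≤ (∑ j ∈ Finset.range J, c j) * M (L - (j0 + 1) * K) :=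
          mul_le_mul_of_nonneg_right hcs (hM0 _)
      _ = ∑ j ∈ Finset.range J, c j * M (L - (j0 + 1) * K) := by rw [Finset.sum_mul]
      _ ≤ ∑ j ∈ Finset.range J, c j * M (L - (j + 1) * K) := by
          apply Finset.sum_le_sum
          intro j hj
          exact mul_le_mul_of_nonneg_left (hmin j hj) (hc j (Finset.mem_range.1 hj))
      _ ≤ M L := h

/-- Exponential growth beats polynomials. -/
theorem exp_beats {r C : ℝ} (hr : 1 < r) (n k : ℕ) :
    ∃ m : ℕ, 1 ≤ m ∧ C * (2 * ((m * n : ℕ) : ℝ) + 1) ^ k < r ^ m := by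
  have h : Tendsto (fun m : ℕ => (m : ℝ) ^ k / r ^ m) atTop (𝓝 0) :=
    tendsto_pow_const_div_const_pow_of_one_lt k hr
  set D : ℝ := (|C| + 1) * (2 * (n : ℝ) + 1) ^ k with hD
  have hDpos : 0 < D := by positivity
  have h2 := (h.eventually (gt_mem_nhds (show (0 : ℝ) < 1 / D by positivity))).and
    (eventually_ge_atTop 1)
  obtain ⟨m, hm, hm1⟩ := h2.exists
  refine ⟨m, hm1, ?_⟩
  have hr' : 0 < r ^ m := by positivity
  rw [div_lt_div_iff₀ hr' hDpos] at hm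
  have hm1' : (1 : ℝ) ≤ m := by exact_mod_cast hm1
  have h3 : (2 * ((m * n : ℕ) : ℝ) + 1) ^ k ≤ ((m : ℝ) * (2 * n + 1)) ^ k := by
    apply pow_le_pow_left₀ (by positivity)
    push_cast
    nlinarith [Nat.cast_nonneg (α := ℝ) n]
  calc C * (2 * ((m * n : ℕ) : ℝ) + 1) ^ k ≤ (|C| + 1) * ((m : ℝ) * (2 * n + 1)) ^ k := by
        apply mul_le_mul _ h3 (by positivity) (by positivity)
        linarith [le_abs_self C]
    _ = (m : ℝ) ^ k * D := by rw [mul_pow, hD]; ring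
    _ < 1 * r ^ m := hm
    _ = r ^ m := one_mul _

/-- The critical exponent. -/
theorem setupP {a : ℕ → ℝ → ℝ} (hc : ∀ n, ContinuousOn (a n) (Set.Icc 0 1))
    (hpos : ∀ n t, 0 ≤ t → t ≤ 1 → 0 < a n t)
    (hsup : ∀ m n t, 0 ≤ t → t ≤ 1 → a m t * a n t ≤ a (m + n) t)
    (hone : ∃ n, 1 < a n 1) {t0 : ℝ} (h0 : 0 < t0) (h1 : t0 ≤ 1) (hneg : ∀ n, a n t0 ≤ 1) :
    ∃ ts, 0 < ts ∧ ts < 1 ∧ (∀ n, a n ts ≤ 1) ∧
      ∀ t, ts < t → t ≤ 1 → ∀ (C : ℝ) (k : ℕ), ∃ n : ℕ, 1 ≤ n ∧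
        C * (2 * (n : ℝ) + 1) ^ k < a n t := by
  set T : Set ℝ := {t | t ∈ Set.Icc t0 1 ∧ ∀ n, a n t ≤ 1} with hT
  have hTcl : IsClosed T := by
    have : T = ⋂ n, {t | t ∈ Set.Icc t0 1 ∧ a n t ≤ 1} := by
      ext t; simp only [hT, Set.mem_setOf_eq, Set.mem_iInter]
      constructor
      · rintro ⟨h1, h2⟩ n; exact ⟨h1, h2 n⟩
      · intro h; exact ⟨(h 0).1, fun n => (h n).2⟩
    rw [this]
    apply isClosed_iInter
    intro n
    have hcn : ContinuousOn (a n) (Set.Icc t0 1) :=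
      (hc n).mono (Set.Icc_subset_Icc_left h0.le)
    have := hcn.preimage_isClosed_of_isClosed isClosed_Icc (isClosed_Iic (a := (1 : ℝ)))
    have e : {t | t ∈ Set.Icc t0 1 ∧ a n t ≤ 1} = Set.Icc t0 1 ∩ a n ⁻¹' Set.Iic 1 := by
      ext t; simp
    rw [e]; exact this
  have hTne : T.Nonempty := ⟨t0, ⟨le_refl _, h1⟩, hneg⟩
  have hTb : BddAbove T := ⟨1, fun t ht => ht.1.2⟩
  have hts := hTcl.csSup_mem hTne hTb
  set ts := sSup T with htsd
  have hts0 : t0 ≤ ts := hts.1.1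
  have hts1 : ts ≤ 1 := hts.1.2
  refine ⟨ts, lt_of_lt_of_le h0 hts0, ?_, hts.2, ?_⟩
  · rcases hts1.lt_or_eq with h | h
    · exact h
    · exfalso
      obtain ⟨n, hn⟩ := hone
      have := hts.2 n
      rw [h] at this
      linarith
  · intro t ht ht1 C k
    have htT : t ∉ T := fun h => absurd (le_csSup hTb h) (not_le.2 ht)
    have : ∃ n, 1 < a n t := by
      by_contra hcon
      push Not at hcon
      exact htT ⟨⟨hts0.trans ht.le, ht1⟩, hcon⟩
    obtain ⟨n, hn⟩ := this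
    have ht0 : 0 ≤ t := by linarith
    have hn1 : 1 ≤ n := by
      rcases Nat.eq_zero_or_pos n with h | h
      · exfalso
        subst h
        have h2 := hsup 0 0 t ht0 ht1
        simp only [add_zero] at h2
        have h3 := hpos 0 t ht0 ht1
        nlinarith
      · exact h
    have hpow : ∀ m : ℕ, 1 ≤ m → (a n t) ^ m ≤ a (m * n) t := by
      intro m hm
      induction m, hm using Nat.le_induction with
      | base => simp
      | succ m hm ih =>
        calc (a n t) ^ (m + 1) = (a n t) ^ m * a n t := pow_succ _ _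
          _ ≤ a (m * n) t * a n t := mul_le_mul_of_nonneg_right ih (hpos n t ht0 ht1).le
          _ ≤ a (m * n + n) t := hsup _ _ t ht0 ht1
          _ = a ((m + 1) * n) t := by ring_nf
    obtain ⟨m, hm1, hm2⟩ := exp_beats (C := C) hn n k
    exact ⟨m * n, Nat.mul_pos hm1 hn1, hm2.trans_le (hpow m hm1)⟩

/-- A submultiplicative sequence which does not decay exponentially is at least `1`. -/
theorem M_ge_one {a M : ℕ → ℝ} (hsub : ∀ m n, M (m + n) ≤ M m * M n) (haM : ∀ n, a n ≤ M n)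
    (ha : ∀ e : ℝ, 0 < e → ∃ N : ℕ, ∀ n : ℕ, N ≤ n → Real.exp (-(e * n)) ≤ a n) :
    ∀ n, 1 ≤ M n := by
  -- positivity for large `n`
  obtain ⟨N, hN⟩ := ha 1 one_pos
  have hlarge : ∀ n, N ≤ n → 0 < M n := fun n hn =>
    lt_of_lt_of_le (Real.exp_pos _) ((hN n hn).trans (haM n))
  intro n
  by_contra hlt
  push Not at hlt
  -- powers
  have hMn : 0 ≤ M n ∨ n = 0 := by
    by_cases h : n = 0
    · exact Or.inr h
    · left
      by_contra hneg
      push Not at hneg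
      -- `M (n + N) ≤ M n * M N < 0`
      have h1 := hsub n N
      have h2 := hlarge N le_rfl
      have h3 := hlarge (n + N) (by omega)
      nlinarith
  rcases hMn with hMn | hn0
  swap
  · subst hn0
    have h1 := hsub 0 N
    have h2 := hlarge N le_rfl
    rw [zero_add] at h1
    nlinarith
  by_cases hn0 : n = 0
  · subst hn0
    have h1 := hsub 0 N
    have h2 := hlarge N le_rfl
    rw [zero_add] at h1
    nlinarith
  have hpow : ∀ m : ℕ, 1 ≤ m → M (m * n) ≤ (M n) ^ m := by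
    intro m hm
    induction m, hm using Nat.le_induction with
    | base => simp
    | succ m hm ih =>
      calc M ((m + 1) * n) = M (m * n + n) := by ring_nf
        _ ≤ M (m * n) * M n := hsub _ _
        _ ≤ (M n) ^ m * M n := mul_le_mul_of_nonneg_right ih hMn
        _ = (M n) ^ (m + 1) := (pow_succ _ _).symm
  have hMpos : 0 < M n := by
    rcases hMn.lt_or_eq with h | h
    · exact h
    · exfalso
      have h1 := hsub n N
      have h3 := hlarge (n + N) (by omega)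
      rw [← h, zero_mul] at h1
      linarith
  -- `e` with `exp (-(e n)) > M n`
  set e : ℝ := -Real.log (M n) / (2 * n) with he
  have hnpos : (0 : ℝ) < n := by exact_mod_cast Nat.pos_of_ne_zero hn0
  have hlog : Real.log (M n) < 0 := Real.log_neg hMpos hlt
  have hepos : 0 < e := by
    rw [he]; apply div_pos (by linarith) (by positivity)
  obtain ⟨N', hN'⟩ := ha e hepos
  set m := N' + 1 with hm
  have hmn : N' ≤ m * n := by
    calc N' ≤ m := by omega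
      _ ≤ m * n := Nat.le_mul_of_pos_right _ (Nat.pos_of_ne_zero hn0)
  have h1 := (hN' (m * n) hmn).trans ((haM _).trans (hpow m (by omega)))
  have h2 : (M n) ^ m = Real.exp (m * Real.log (M n)) := by
    rw [mul_comm, Real.exp_mul, Real.exp_log hMpos, Real.rpow_natCast]
  rw [h2, Real.exp_le_exp] at h1
  have h3 : e * ((m * n : ℕ) : ℝ) = -Real.log (M n) * m / 2 := by
    rw [he]; push_cast; field_simp
  rw [h3] at h1
  have hmpos : (0 : ℝ) < m := by rw [hm]; positivity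
  nlinarith

end Pool.Agent.W_7d29a1_P78
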