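import Pool.Agent.W_7d29a1_P89.Main
import Pool.Agent.W_7d29a1_Q29.Tr29

/-!
Theorem (P): exponential growth of all the moments of positive order, in the frame of `h46u` and for
an arbitrary i.i.d. environment.
-/

set_option autoImplicit false

namespace Pool.Agent.W_7d29a1_P78

open MeasureTheory ProbabilityTheory Filter Topology Pool.Agent.W_MP_7d29a1_pr
  Pool.Agent.W_7d29a1_h46 Pool.Agent.W_7d29a1_h46u Pool.Agent.W_7d29a1_D2.B35
  Pool.Agent.W_7d29a1_P89 Pool.Agent.W_7d29a1_Q29

/-- A supermultiplicative sequence of positive numbers with one term larger than one grows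
exponentially. -/
lemma super_growth78 {a : ℕ → ℝ} (hpos : ∀ n, 0 < a n) (hsup : ∀ m n, a m * a n ≤ a (m + n))
    (hex : ∃ n, 1 < a n) : ∃ c : ℝ, 0 < c ∧ ∀ᶠ n : ℕ in atTop, Real.exp (c * n) ≤ a n := by
  obtain ⟨k, hk⟩ := hex
  have hk0 : 0 < k := by
    rcases Nat.eq_zero_or_pos k with h | h
    · subst h
      have h2 := hsup 0 0
      simp only [add_zero] at h2
      nlinarith
    · exact h
  have hq : ∀ q r : ℕ, a k ^ q * a r ≤ a (k * q + r) := by
    intro q r
    induction q with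
    | zero => simp
    | succ q ih =>
      calc a k ^ (q + 1) * a r = a k * (a k ^ q * a r) := by ring
        _ ≤ a k * a (k * q + r) := mul_le_mul_of_nonneg_left ih (hpos k).le
        _ ≤ a (k + (k * q + r)) := hsup _ _
        _ = a (k * (q + 1) + r) := by congr 1; ring
  obtain ⟨m, hm0, hm⟩ : ∃ m : ℝ, 0 < m ∧ ∀ r < k, m ≤ a r := by
    have hne : (Finset.range k).Nonempty := ⟨0, Finset.mem_range.2 hk0⟩
    obtain ⟨r0, _, hmin⟩ := Finset.exists_min_image (Finset.range k) a hne
    exact ⟨a r0, hpos r0, fun r hr => hmin r (Finset.mem_range.2 hr)⟩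
  set L := Real.log (a k) with hL
  have hLpos : 0 < L := Real.log_pos hk
  have hkR : (0 : ℝ) < k := by exact_mod_cast hk0
  refine ⟨L / (2 * k), by positivity, ?_⟩
  obtain ⟨N, hN⟩ := exists_nat_ge ((L - Real.log m) * (2 * k) / L)
  filter_upwards [eventually_ge_atTop N] with n hn
  have hn' : (L - Real.log m) * (2 * k) / L ≤ n := hN.trans (by exact_mod_cast hn)
  rw [div_le_iff₀ hLpos] at hn'
  have h1 := hq (n / k) (n % k)
  rw [Nat.div_add_mod] at h1
  have h2 : m ≤ a (n % k) := hm _ (Nat.mod_lt _ hk0)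
  have h3 : Real.exp (L * (n / k : ℕ)) = a k ^ (n / k) := by
    rw [mul_comm, Real.exp_nat_mul, hL, Real.exp_log (hpos k)]
  have h4 : (n : ℝ) / k - 1 ≤ (n / k : ℕ) := by
    have h5 : (n : ℝ) < k * ((n / k : ℕ) + 1) := by
      have h6 := Nat.lt_mul_div_succ n hk0
      exact_mod_cast h6
    have h7 : (n : ℝ) / k < (n / k : ℕ) + 1 := by
      rw [div_lt_iff₀ hkR]
      linarith
    linarith
  calc Real.exp (L / (2 * k) * n) ≤ Real.exp (L * (n / k : ℕ) + Real.log m) := by
        apply Real.exp_le_exp.2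
        have h5 : L * ((n : ℝ) / k - 1) ≤ L * (n / k : ℕ) :=
          mul_le_mul_of_nonneg_left h4 hLpos.le
        have h6 : L - Real.log m ≤ L / (2 * k) * n := by
          rw [div_mul_eq_mul_div, le_div_iff₀ (by positivity)]
          linarith
        have h7 : L / (2 * k) * n = L * ((n : ℝ) / k) / 2 := by
          field_simp
        linarith
    _ = a k ^ (n / k) * m := by rw [Real.exp_add, h3, Real.exp_log hm0]
    _ ≤ a k ^ (n / k) * a (n % k) :=
        mul_le_mul_of_nonneg_left h2 (pow_nonneg (hpos k).le _)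
    _ ≤ a n := h1

variable {d : ℕ} {ρ : Measure ℝ} [IsProbabilityMeasure ρ]

lemma Z_sum78 (β : ℝ) (h : Vec d) (η : Env d) (n : ℕ) :
    Z β h η n = ∑ s : Fin n → Step d, wgt β h η s := by
  unfold Z ZT
  simp

lemma wgt_pow78 {n : ℕ} (β : ℝ) (h : Vec d) (η : Env d) (s : Fin n → Step d) (t : ℝ) :
    wgt β h η s ^ t = wgt (t * β) (t • h) η s := by
  unfold wgt
  rw [← Real.exp_mul]
  congr 1
  rw [real_inner_smul_left]
  ring

lemma Z_pow_le78 (β : ℝ) (h : Vec d) (η : Env d) (n : ℕ) {t : ℝ} (h1 : 1 ≤ t) :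
    Z β h η n ^ t ≤ ((Finset.univ : Finset (Fin n → Step d)).card : ℝ) ^ (t - 1) *
      Z (t * β) (t • h) η n := by
  rw [Z_sum78, Z_sum78]
  have h2 := Real.rpow_sum_le_const_mul_sum_rpow_of_nonneg
    (s := (Finset.univ : Finset (Fin n → Step d))) (f := fun s => wgt β h η s) h1
    (fun s _ => (Real.exp_pos _).le)
  refine h2.trans (le_of_eq ?_)
  congr 1
  exact Finset.sum_congr rfl fun s _ => wgt_pow78 β h η s t

lemma Z_int78 (hd : 0 < d) (hρ : EM ρ) (β : ℝ) (h : Vec d) (n : ℕ) :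
    Integrable (fun η : Env d => Z β h η n) (law d ρ) := by
  have h1 := integrable_ZH hd hρ (⟨0, β, h, 1⟩ : Prm d) n
  refine h1.congr (Eventually.of_forall fun η => ?_)
  simp only
  unfold ZH
  simp

lemma Z_meas78 (β : ℝ) (h : Vec d) (n : ℕ) : Measurable fun η : Env d => Z β h η n := by
  have h1 := measurable_ZH (⟨0, β, h, 1⟩ : Prm d) n
  have h2 : (fun η : Env d => Z β h η n) = fun η => ZH (⟨0, β, h, 1⟩ : Prm d) η n := by
    funext η
    unfold ZH
    simp
  rw [h2]
  exact h1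

lemma Z_powint78 (hd : 0 < d) (hρ : EM ρ) (β : ℝ) (h : Vec d) (n : ℕ) {t : ℝ} (h1 : 1 ≤ t) :
    Integrable (fun η : Env d => Z β h η n ^ t) (law d ρ) := by
  refine ((Z_int78 hd hρ (t * β) (t • h) n).const_mul
    (((Finset.univ : Finset (Fin n → Step d)).card : ℝ) ^ (t - 1))).mono'
    ((Z_meas78 β h n).pow_const t).aestronglyMeasurable (Eventually.of_forall fun η => ?_)
  rw [Real.norm_eq_abs, abs_of_nonneg (Real.rpow_nonneg (Z_pos hd β h η n).le _)]
  exact Z_pow_le78 β h η n h1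

lemma Z_negint78 (hd : 0 < d) (hρ : EM ρ) (β : ℝ) (h : Vec d) (n : ℕ) {t : ℝ} (h0 : 0 ≤ t) :
    Integrable (fun η : Env d => Z β h η n ^ (-t)) (law d ρ) := by
  haveI : Nonempty (Step d) := by
    by_contra hne
    rw [not_nonempty_iff] at hne
    have h1 := Z_pos hd β h (fun _ => 0) 1
    rw [Z_sum78] at h1
    haveI : IsEmpty (Fin 1 → Step d) := ⟨fun s => hne.false (s 0)⟩
    simp at h1
  refine (Z_int78 hd hρ (-t * β) ((-t) • h) n).mono'
    ((Z_meas78 β h n).pow_const (-t)).aestronglyMeasurable (Eventually.of_forall fun η => ?_)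
  rw [Real.norm_eq_abs, abs_of_nonneg (Real.rpow_nonneg (Z_pos hd β h η n).le _)]
  let s0 : Fin n → Step d := fun _ => Classical.arbitrary _
  have h2 : wgt β h η s0 ≤ Z β h η n := by
    rw [Z_sum78]
    exact Finset.single_le_sum (f := fun s => wgt β h η s) (fun s _ => (Real.exp_pos _).le)
      (Finset.mem_univ s0)
  have h3 : wgt (-t * β) ((-t) • h) η s0 ≤ Z (-t * β) ((-t) • h) η n := by
    rw [Z_sum78]
    exact Finset.single_le_sum (f := fun s => wgt (-t * β) ((-t) • h) η s)
      (fun s _ => (Real.exp_pos _).le) (Finset.mem_univ s0)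
  refine le_trans ?_ h3
  rw [← wgt_pow78]
  exact Real.rpow_le_rpow_of_nonpos (Real.exp_pos _) h2 (by linarith)

lemma ZH_pow78 (hd : 0 < d) (P : Prm d) (η : Env d) (n : ℕ) (t : ℝ) :
    ZH P η n ^ t = Real.exp (-((n : ℝ) * P.Lam)) ^ t * Z P.be P.h η n ^ t := by
  unfold ZH
  rw [Real.mul_rpow (Real.exp_pos _).le (Z_pos hd _ _ _ _).le]

lemma ZH_powint78 (hd : 0 < d) (hρ : EM ρ) (P : Prm d) (n : ℕ) {t : ℝ} (h0 : 0 ≤ t) :
    Integrable (fun η => ZH P η n ^ t) (law d ρ) := by
  rcases le_total t 1 with h1 | h1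
  · exact integrable_pow hd hρ P n h0 h1
  · have h2 := (Z_powint78 hd hρ P.be P.h n h1).const_mul (Real.exp (-((n : ℝ) * P.Lam)) ^ t)
    refine h2.congr (Eventually.of_forall fun η => ?_)
    simp only
    rw [ZH_pow78 hd]

lemma aP_pos78' (hd : 0 < d) (hρ : EM ρ) (P : Prm d) (n : ℕ) {t : ℝ} (h0 : 0 ≤ t) :
    0 < aP ρ P n t := by
  unfold aP
  rw [integral_pos_iff_support_of_nonneg
    (fun η => Real.rpow_nonneg (ZH_pos hd P η n).le _) (ZH_powint78 hd hρ P n h0)]
  have h2 : Function.support (fun η => ZH P η n ^ t) = Set.univ := by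
    ext η
    simp only [Function.mem_support, Set.mem_univ, iff_true]
    exact (Real.rpow_pos_of_pos (ZH_pos hd P η n) t).ne'
  rw [h2]
  simp

/-- The moments of positive order grow exponentially in very strong disorder. -/
theorem growAll78 (hd : 0 < d) (hρ : EM ρ) (P : Prm d) (hL : P.Lam = lam ρ P.be P.h)
    (hvs : lam ρ P.be P.h < Real.log (∫ x, Real.exp (P.be * x) ∂ρ) +
      Real.log (∑ e : Step d, Real.exp (inner ℝ P.h (emb (vec e)))))
    {t : ℝ} (h0 : 0 < t) :
    ∃ c : ℝ, 0 < c ∧ ∀ᶠ n : ℕ in atTop, Real.exp (c * n) ≤ aP ρ P n t := by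
  have hle : ∀ {s : ℝ}, 0 < s → s ≤ 1 →
      ∃ c : ℝ, 0 < c ∧ ∀ᶠ n : ℕ in atTop, Real.exp (c * n) ≤ aP ρ P n s := by
    intro s hs0 hs1
    exact super_growth78 (fun n => aP_pos78' hd hρ P n hs0.le)
      (fun m n => Pool.Agent.W_7d29a1_P25.superA hd hρ P hs0.le hs1 m n)
      (mainP hd hρ P hL hvs hs0 hs1)
  rcases le_total t 1 with h1 | h1
  · exact hle h0 h1
  · obtain ⟨c, hc, hn⟩ := hle one_pos le_rfl
    refine ⟨c / 2, by positivity, ?_⟩
    obtain ⟨N, hN⟩ := exists_nat_ge (2 / c)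
    filter_upwards [hn, eventually_ge_atTop N] with n hn1 hn2
    have hn3 : 2 / c ≤ n := hN.trans (by exact_mod_cast hn2)
    rw [div_le_iff₀ hc] at hn3
    have h2 : aP ρ P n 1 ≤ 1 + aP ρ P n t := by
      have h3 : ∫ η, ZH P η n ^ (1 : ℝ) ∂(law d ρ) ≤ ∫ η, (1 + ZH P η n ^ t) ∂(law d ρ) := by
        refine integral_mono (ZH_powint78 hd hρ P n zero_le_one)
          ((integrable_const _).add (ZH_powint78 hd hρ P n h0.le)) fun η => ?_
        simp only [Real.rpow_one]
        rcases le_total (ZH P η n) 1 with h4 | h4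
        · have := Real.rpow_nonneg (ZH_pos hd P η n).le t
          linarith
        · have h5 : ZH P η n ^ (1 : ℝ) ≤ ZH P η n ^ t := Real.rpow_le_rpow_of_exponent_le h4 h1
          rw [Real.rpow_one] at h5
          linarith
      rw [integral_add (integrable_const _) (ZH_powint78 hd hρ P n h0.le), integral_const] at h3
      simpa [aP] using h3
    set y := Real.exp (c / 2 * n) with hy
    have h6 : 2 ≤ y := by
      have h7 := Real.add_one_le_exp (c / 2 * n)
      have h8 : (1 : ℝ) ≤ c / 2 * n := by linarith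
      linarith
    have h9 : Real.exp (c * n) = y * y := by
      rw [hy, ← Real.exp_add]
      congr 1
      ring
    nlinarith

variable {Ω : Type*} [MeasurableSpace Ω] {μ : Measure Ω} [IsProbabilityMeasure μ]
  {ω : ℕ × Site d → Ω → ℝ} {β : ℝ}

/-- **Theorem (P)**: in very strong disorder, for every `t > 0`, the `t`-th moment of the partition
function grows exponentially faster than the `t`-th power of its typical value. -/
theorem mainPZ78 (hd : 0 < d) (hω : IID μ ρ ω) (hρ : EM ρ) {h : Vec d} (hV : VSD ρ β h)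
    {t : ℝ} (h0 : 0 < t) : ∃ c : ℝ, 0 < c ∧ ∀ᶠ n : ℕ in atTop,
      Real.exp (n * (t * (lam ρ β h - Real.log (2 * d)) + c)) ≤
        ∫ x, Zn β h (fun p => ω p x) n ^ t ∂μ := by
  have hd' : (0 : ℝ) < d := by exact_mod_cast hd
  obtain ⟨c, hc, hn⟩ := growAll78 hd hρ (⟨lam ρ β h, β, h, 1⟩ : Prm d) rfl
    (by unfold VSD Phi at hV; simp only; linarith) h0
  refine ⟨c, hc, ?_⟩
  filter_upwards [hn] with n hn
  have hZn : ∀ η : Env d, Zn β h η n = Z β h η n / (2 * d : ℝ) ^ n := fun η => rfl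
  have hm : Measurable fun η : Env d => Zn β h η n ^ t := by
    simp only [hZn]
    exact ((Z_meas78 β h n).div_const _).pow_const t
  have h1 : ∫ x, Zn β h (fun p => ω p x) n ^ t ∂μ = ∫ η, Zn β h η n ^ t ∂(law d ρ) :=
    StrA_int hω hm
  rw [h1]
  have h2 : ∀ η : Env d, Zn β h η n ^ t =
      Real.exp (n * (t * (lam ρ β h - Real.log (2 * d)))) *
        ZH (⟨lam ρ β h, β, h, 1⟩ : Prm d) η n ^ t := by
    intro η
    rw [ZH_pow78 hd, hZn, Real.div_rpow (Z_pos hd _ _ _ _).le (by positivity)]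
    have e1 : ((2 * d : ℝ) ^ n) ^ t = Real.exp (n * (t * Real.log (2 * d))) := by
      rw [← Real.rpow_natCast, ← Real.rpow_mul (by positivity), Real.rpow_def_of_pos (by positivity)]
      congr 1
      ring
    have e2 : Real.exp (-((n : ℝ) * lam ρ β h)) ^ t = Real.exp (-(n * (t * lam ρ β h))) := by
      rw [← Real.exp_mul]
      congr 1
      ring
    simp only
    rw [e1, e2]
    have e3 : (Real.exp (n * (t * Real.log (2 * d))))⁻¹ =
        Real.exp (n * (t * (lam ρ β h - Real.log (2 * d)))) *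
          Real.exp (-(n * (t * lam ρ β h))) := by
      rw [← Real.exp_neg, ← Real.exp_add]
      congr 1
      ring
    rw [div_eq_inv_mul, e3]
    ring
  simp only [h2]
  rw [integral_const_mul]
  calc Real.exp (n * (t * (lam ρ β h - Real.log (2 * d)) + c))
      = Real.exp (n * (t * (lam ρ β h - Real.log (2 * d)))) * Real.exp (c * n) := by
        rw [← Real.exp_add]
        congr 1
        ring
    _ ≤ _ := mul_le_mul_of_nonneg_left hn (Real.exp_pos _).le

/-- In very strong disorder no exponential moment of the centred free energy is subexponential. -/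
theorem mainPX78 (hd : 0 < d) (hω : IID μ ρ ω) (hρ : EM ρ) {h : Vec d} (hV : VSD ρ β h)
    {t : ℝ} (h0 : 0 < t) : ∃ c : ℝ, 0 < c ∧ ∀ᶠ n : ℕ in atTop,
      Real.exp (c * n) ≤ ∫ x, Real.exp (t * |Real.log (Zn β h (fun p => ω p x) n) -
        ∫ z, Real.log (Zn β h (fun p => ω p z) n) ∂μ|) ∂μ := by
  obtain ⟨c, hc, hn⟩ := growAll78 hd hρ (⟨lam ρ β h, β, h, 1⟩ : Prm d) rfl
    (by unfold VSD Phi at hV; simp only; linarith) h0
  refine ⟨c, hc, ?_⟩
  filter_upwards [hn] with n hn
  refine hn.trans ?_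
  rw [mean29 hd hω hρ h n]
  have hXm : Measurable fun η : Env d => Real.exp (t * |X β h η n - A ρ β h n|) :=
    Real.measurable_exp.comp ((((measurable_X (d := d) β h n).sub_const _).abs).const_mul t)
  have h1 : ∫ x, Real.exp (t * |Real.log (Zn β h (fun p => ω p x) n) -
      (A ρ β h n - Real.log ((2 * d : ℝ) ^ n))|) ∂μ =
      ∫ η, Real.exp (t * |X β h η n - A ρ β h n|) ∂(law d ρ) := by
    rw [← StrA_int hω hXm]
    refine integral_congr_ae (Eventually.of_forall fun x => ?_)
    simp only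
    rw [StrA_log hd]
    congr 3
    ring
  rw [h1]
  have hexp : ∀ η : Env d, Z β h η n = Real.exp (X β h η n) := fun η =>
    (Real.exp_log (Z_pos hd β h η n)).symm
  have hi1 : Integrable (fun η : Env d => Z β h η n ^ t) (law d ρ) := by
    have h2 := ZH_powint78 hd hρ (⟨0, β, h, 1⟩ : Prm d) n h0.le
    refine h2.congr (Eventually.of_forall fun η => ?_)
    simp only
    unfold ZH
    simp
  have hi2 := Z_negint78 hd hρ β h n h0.le
  have hi3 : Integrable (fun η : Env d => Real.exp (t * |X β h η n - A ρ β h n|)) (law d ρ) := by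
    refine ((hi1.const_mul (Real.exp (-(t * A ρ β h n)))).add
      (hi2.const_mul (Real.exp (t * A ρ β h n)))).mono' hXm.aestronglyMeasurable
      (Eventually.of_forall fun η => ?_)
    rw [Real.norm_eq_abs, abs_of_pos (Real.exp_pos _)]
    simp only [Pi.add_apply]
    rw [hexp η, ← Real.exp_mul, ← Real.exp_mul, ← Real.exp_add, ← Real.exp_add]
    rcases abs_cases (X β h η n - A ρ β h n) with ⟨h4, _⟩ | ⟨h4, _⟩
    · rw [h4]
      have h5 : t * (X β h η n - A ρ β h n) = -(t * A ρ β h n) + X β h η n * t := by ring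
      rw [h5]
      have := Real.exp_pos (t * A ρ β h n + X β h η n * -t)
      linarith
    · rw [h4]
      have h5 : t * -(X β h η n - A ρ β h n) = t * A ρ β h n + X β h η n * -t := by ring
      rw [h5]
      have := Real.exp_pos (-(t * A ρ β h n) + X β h η n * t)
      linarith
  have hA : A ρ β h n ≤ n * lam ρ β h := A_le_lam hd hρ β h n
  unfold aP
  refine integral_mono (ZH_powint78 hd hρ _ n h0.le) hi3 fun η => ?_
  simp only
  rw [Pool.Agent.W_7d29a1_P25.ZH_exp hd, ← Real.exp_mul]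
  apply Real.exp_le_exp.2
  simp only
  have h6 := le_abs_self (X β h η n - A ρ β h n)
  nlinarith

end Pool.Agent.W_7d29a1_P78
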